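import Pool.Agent.KTB.StmtsKA

/-!
# Squad KTB, block B: free big points and the induction step

CONVENTIONS. As in block A. In the docstrings a relation between numbers `ρ a` holds for all `ρ` in
the space `D.R S` of the set `S` under discussion. `K` is an irreducible perfect cover (`Dat.IPC`),
its blocks are the sets `D.E S k`, `k ∈ K`; a block is BIG if it has at least three elements.

* Section 1: pure rank functions (no `Dat`): rows TGA TGB TGC TGM TGD FBG.
* Section 2: the rank function of a `Dat`, free points of an `IPC`: rows DIM RKA RKB FRA FRB FRC FRT.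
* Section 3: the induction step: rows XCL IPX STE CLM NST.
-/

set_option autoImplicit false

namespace Pool.Agent.KTB

open Finset
open scoped Classical

/-! ## 1. Rank functions -/

section pure

variable {ι κ : Type}

/-- the excess of the blocks of `C` -/
def rexc (E : κ → Finset ι) (C : Finset κ) : ℕ := ∑ k ∈ C, ((E k).card - 2)

/-- `r` is a rank function for which the blocks `E k`, `k ∈ K`, are circuits, and the rank of every
nonempty set of blocks is larger than its excess -/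
structure Rks (r : Finset ι → ℕ) (E : κ → Finset ι) (K : Finset κ) : Prop where
  emp : r ∅ = 0
  mono : ∀ A B, A ⊆ B → r A ≤ r B
  sub : ∀ A B, r (A ∪ B) + r (A ∩ B) ≤ r A + r B
  one : ∀ a, r {a} ≤ 1
  non : ∀ k ∈ K, ∀ y ∈ E k, r {y} = 1
  cir : ∀ k ∈ K, ∀ y ∈ E k, r ((E k).erase y) = r (E k)
  two : ∀ k ∈ K, 2 ≤ (E k).card
  irr : ∀ C, C ⊆ K → C.Nonempty → 1 + rexc E C ≤ r (C.biUnion E)

/-- the set `C` of blocks is tight -/
def Tgt (r : Finset ι → ℕ) (E : κ → Finset ι) (K C : Finset κ) : Prop :=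
  C ⊆ K ∧ C.Nonempty ∧ r (C.biUnion E) = 1 + rexc E C

/-- the element `t` is in the span of the blocks of `C` -/
def Inc (r : Finset ι → ℕ) (E : κ → Finset ι) (C : Finset κ) (t : ι) : Prop :=
  r (insert t (C.biUnion E)) = r (C.biUnion E)

/-- the union of all the tight sets which do not contain `k` and whose span contains `t` -/
noncomputable def Btt (r : Finset ι → ℕ) (E : κ → Finset ι) (K : Finset κ) (k : κ) (t : ι) :
    Finset κ :=
  K.filter fun j => ∃ C, Tgt r E K C ∧ k ∉ C ∧ Inc r E C t ∧ j ∈ C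

/-- `t` is a free point of the big block `k` -/
def Fre (r : Finset ι → ℕ) (E : κ → Finset ι) (K : Finset κ) (k : κ) (t : ι) : Prop :=
  k ∈ K ∧ t ∈ E k ∧ 3 ≤ (E k).card ∧ ∀ j ∈ Btt r E K k t, (E j).card = 2

end pure

/-- **Row TGA** (ranks of blocks; easy). PROOF. (a) induction on `A`: by `sub` for `A`, `{a}`,
`r (insert a A) ≤ r A + r {a} ≤ r A + 1`. (b) `sub` for `insert y A` and `B`: the union is
`insert y B`, the intersection contains `A`. (c) induction on `B` with (b). (d)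
`r (E k) = r ((E k).erase y) ≤ |E k| - 1` by `cir` and (a); `irr` for `C = {k}` gives
`1 + (|E k| - 2) ≤ r (E k)`. (e) take `z ∈ E k`, `z ≠ y`, `z ≠ y'`; `(E k).erase z` has rank `|E k| - 1`
and is the union of `{y, y'}` and a set of `|E k| - 3` elements, so by `sub` and (a)
`r {y, y'} ≥ 2`. (f) from (d). -/
def TgaStmt : Prop :=
  ∀ (ι κ : Type) (r : Finset ι → ℕ) (E : κ → Finset ι) (K : Finset κ), Rks r E K →
    (∀ A, r A ≤ A.card) ∧
    (∀ A B, A ⊆ B → ∀ y, r (insert y A) = r A → r (insert y B) = r B) ∧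
    (∀ A B, (∀ y ∈ B, r (insert y A) = r A) → r (A ∪ B) = r A) ∧
    (∀ k ∈ K, r (E k) + 1 = (E k).card) ∧
    (∀ k ∈ K, 3 ≤ (E k).card → ∀ y ∈ E k, ∀ y' ∈ E k, y ≠ y' → r {y, y'} = 2) ∧
    ∀ k ∈ K, Tgt r E K {k}

/-- **Row TGB** (unions of tight sets are tight; uses TGA). `y` is in the span of both.
PROOF. `A = C.biUnion E`, `B = C'.biUnion E`, `A ∪ B = (C ∪ C').biUnion E`. `≥` is `irr`. If `C ∩ C'` is
not empty, `A ∩ B` contains `(C ∩ C').biUnion E`, of rank at least `1 + rexc (C ∩ C')` (`irr`), so by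
`sub` `r (A ∪ B) ≤ 1 + rexc C + 1 + rexc C' - 1 - rexc (C ∩ C') = 1 + rexc (C ∪ C')`. If `C ∩ C' = ∅`,
apply `sub` to `insert y A` and `insert y B`: their ranks are `r A` and `r B`, the intersection
contains `y`, so its rank is at least `1`, and `r (A ∪ B) ≤ r A + r B - 1 = 1 + rexc C + rexc C'`. -/
def TgbStmt : Prop :=
  ∀ (ι κ : Type) (r : Finset ι → ℕ) (E : κ → Finset ι) (K : Finset κ), Rks r E K →
    ∀ C C' y, Tgt r E K C → Tgt r E K C' → r {y} = 1 → Inc r E C y → Inc r E C' y →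
      Tgt r E K (C ∪ C')

/-- **Row TGC** (two points of a block are not both in the span of a tight set; uses TGA). PROOF.
Let `A = C.biUnion E`, `z ∈ E k` different from `t, t'`. `(insert k C).biUnion E = A ∪ E k` has rank at
least `1 + rexc C + (|E k| - 2)` by `irr`. By `cir` and TGA (b) `z` is in the span of
`A ∪ (E k).erase z`, and `t, t'` are in the span of `A`. So by TGA (b), (c) the rank of `A ∪ E k` is the
rank of `A ∪ (E k \ {t, t', z})`, which is at most `r A + (|E k| - 3) = 1 + rexc C + |E k| - 3`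
(`sub`, TGA (a)): a contradiction. -/
def TgcStmt : Prop :=
  ∀ (ι κ : Type) (r : Finset ι → ℕ) (E : κ → Finset ι) (K : Finset κ), Rks r E K →
    ∀ C k t t', Tgt r E K C → k ∈ K → k ∉ C → 3 ≤ (E k).card → t ∈ E k → t' ∈ E k → t ≠ t' →
      Inc r E C t → Inc r E C t' → False

/-- **Row TGM** (`Btt` is the largest one of the sets of its definition; uses TGA, TGB). PROOF. The
tight sets `C` with `k ∉ C`, `Inc C t` are closed under unions (TGB with `y = t`, `r {t} = 1` by `non`;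
`Inc` of the union by TGA (b)). Let `C` be one of them with the largest number of elements (they are
subsets of `K`, there is one as `Btt` is not empty). Every other one `C'` is contained in `C`, because
`C ∪ C'` is one of them, too. So `Btt r E K k t = C`. -/
def TgmStmt : Prop :=
  ∀ (ι κ : Type) (r : Finset ι → ℕ) (E : κ → Finset ι) (K : Finset κ), Rks r E K →
    ∀ k ∈ K, ∀ t ∈ E k, (Btt r E K k t).Nonempty →
      Tgt r E K (Btt r E K k t) ∧ k ∉ Btt r E K k t ∧ Inc r E (Btt r E K k t) t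

/-- **Row TGD** (uses TGA, TGB, TGC, TGM). PROOF. (i) Suppose that `j` is in both. Then both are tight,
do not contain `k`, and `Inc` holds for `t`, `t'` respectively (TGM). Some `y ∈ E j` (`two`) is in
both unions of blocks, `r {y} = 1` (`non`, `j ∈ K`); so the union is tight (TGB), does not contain `k`, and its span
contains `t` and `t'` (TGA (b)): impossible by TGC. (ii) By TGM both are tight. `t₁ ∈ E k₁` is in the
span of both, `r {t₁} = 1`, so their union `C` is tight (TGB). It does not contain `k₀` and its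
span contains `t₀` (TGA (b)), so `C ⊆ Btt k₀ t₀` by definition. `k₁ ∈ Btt k₀ t₀` is not in
`Btt k₁ t₁`: the inclusion `Btt k₁ t₁ ⊆ Btt k₀ t₀` is strict. -/
def TgdStmt : Prop :=
  ∀ (ι κ : Type) (r : Finset ι → ℕ) (E : κ → Finset ι) (K : Finset κ), Rks r E K →
    (∀ k ∈ K, 3 ≤ (E k).card → ∀ t ∈ E k, ∀ t' ∈ E k, t ≠ t' →
      Disjoint (Btt r E K k t) (Btt r E K k t')) ∧
    ∀ k₀ ∈ K, ∀ t₀ ∈ E k₀, ∀ k₁ ∈ Btt r E K k₀ t₀, ∀ t₁ ∈ E k₁, (Btt r E K k₁ t₁).Nonempty →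
      k₀ ∉ Btt r E K k₁ t₁ → (Btt r E K k₁ t₁).card < (Btt r E K k₀ t₀).card

/-- **Row FBG** (three free big points; medium, uses TGM, TGD). PROOF. Call `(k, t)` a big point if
`k ∈ K`, `t ∈ E k`, `|E k| ≥ 3`; it is bad if some `j ∈ Btt k t` has `|E j| ≠ 2` (then `|E j| ≥ 3`);
the other ones are free. (1) If there is no bad point take `F = {k} × E k` for a big block `k`. (2) Let
`(k₀, t₀)` be a bad point with `|Btt k₀ t₀|` minimal, `k₁ ∈ Btt k₀ t₀`, `|E k₁| ≥ 3`. If `(k₁, t₁)` is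
bad, then `k₀ ∈ Btt k₁ t₁` by TGD (ii) and minimality. By TGD (i) there is at most one such `t₁`. So at
least `|E k₁| - 1 ≥ 2` of the points of `k₁` are free. If all are free, there are three. Otherwise let
`(k₁, t₁)` be bad; `k₁ ∉ Btt k₁ t₁` (TGM). So there are bad points `(k', t')` with `k₁ ∉ Btt k' t'`; take
one with `|Btt k' t'|` minimal, `k₂ ∈ Btt k' t'`, `|E k₂| ≥ 3`; `k₂ ≠ k₁`. If `(k₂, t₂)` is bad, then
`k₁ ∈ Btt k₂ t₂` or `k' ∈ Btt k₂ t₂` (otherwise `|Btt k₂ t₂| < |Btt k' t'|` by TGD (ii), against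
minimality). By TGD (i) each of the two happens for at most one `t₂`. So at least `|E k₂| - 2 ≥ 1` of
the points of `k₂` are free; together with two free points of `k₁` there are three. -/
def FbgStmt : Prop :=
  ∀ (ι κ : Type) (r : Finset ι → ℕ) (E : κ → Finset ι) (K : Finset κ), Rks r E K →
    (∃ k ∈ K, 3 ≤ (E k).card) →
    ∃ F : Finset (κ × ι), 3 ≤ F.card ∧ ∀ q ∈ F, Fre r E K q.1 q.2

/-! ## 2. The rank function of the relations -/

/-- the rank of `A` in `S` -/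
noncomputable def Dat.rk {ι T : Type} [Fintype ι] (D : Dat ι T) (S A : Finset ι) : ℕ :=
  D.nul S - D.nul (S \ A)

/-- the blocks of `K` whose elements are all parallel to `t` -/
noncomputable def Dat.par {ι T : Type} [Fintype ι] (D : Dat ι T) (S : Finset ι) (K : Finset T)
    (t : ι) : Finset T :=
  K.filter fun j => D.E S j ⊆ D.sg S t

/-- `t` is a free point of the big block `k` of the cover `K` of `S` -/
structure Dat.Fr {ι T : Type} [Fintype ι] (D : Dat ι T) (S : Finset ι) (K : Finset T) (k : T)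
    (t : ι) : Prop where
  kK : k ∈ K
  tN : t ∈ D.N S
  big : 3 ≤ (D.E S k).card
  tk : D.x k t = 1
  oth : ∀ j ∈ K, j ≠ k → D.x j t = 0
  kpar : k ∉ D.par S K t
  cls : ∀ y ∈ D.sg S t, y ≠ t → ∃ j ∈ D.par S K t, D.x j y ≠ 0
  pair : ∀ j ∈ D.par S K t, ∀ y ∈ S, D.x j y ≠ 0 → ∃ y', D.Clean S j y y'
  tight : ∀ C ⊆ K, C.Nonempty → k ∉ C → D.nul (S \ D.EK S C) + 1 + D.exc S C = D.nul S →
    (∀ ρ ∈ D.R (S \ D.EK S C), ρ t = 0) → C ⊆ D.par S K t

/-- **Row DIM** (dimensions; easy). PROOF. (a) `R A ≤ R B`, `Submodule.finrank_mono`. (b)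
`Submodule.finrank_sup_add_finrank_inf_eq`: `R A ⊓ R B = R (A ∩ B)`, `R A ⊔ R B ≤ R (A ∪ B)`. (e) if
`ρ t = 0` on `R A` take `c = 0`; otherwise some `ρ₀ ∈ R A` has `ρ₀ t = 1`, put `c = ρ₀ y`: the relation
`ρ - ρ t • ρ₀` is `0` at `t`. (c) `R A` is contained in `R (insert a A)` as the set of the `ρ` with
`ρ a = 0` (if `a ∉ A`): the map `ρ ↦ ρ a` has rank at most one (rank nullity). (d) if the dimensions
are equal then `R A = R B` (`Submodule.eq_of_le_of_finrank_eq`), and `ρ b = 0` for `ρ ∈ R A`,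
`b ∉ A`; conversely the condition says `R B ≤ R A`. -/
def DimStmt : Prop :=
  ∀ (ι T : Type) [Fintype ι] (D : Dat ι T),
    (∀ A B, A ⊆ B → D.nul A ≤ D.nul B) ∧
    (∀ A B, D.nul A + D.nul B ≤ D.nul (A ∪ B) + D.nul (A ∩ B)) ∧
    (∀ A a, D.nul (insert a A) ≤ D.nul A + 1) ∧
    (∀ A B, A ⊆ B → (D.nul A = D.nul B ↔ ∀ ρ ∈ D.R B, ∀ b ∈ B, b ∉ A → ρ b = 0)) ∧
    ∀ A t y, (∀ ρ ∈ D.R A, ρ t = 0 → ρ y = 0) → ∃ c : ℚ, ∀ ρ ∈ D.R A, ρ y = c * ρ t

/-- **Row RKB** (translation; uses DIM). PROOF. (a) both sides are the `a ∈ S` with `x k a ≠ 0` for some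
`k ∈ C`. (b) `rexc`, `exc` are the same sum; by (a) `rk (C.biUnion E) = nul S - nul (S \ EK S C)` with
`nul (S \ EK S C) ≤ nul S` (DIM (a)). (c) the ranks are equal iff
`nul (S \ insert t (EK S C)) = nul (S \ EK S C)` (both are `≤ nul S`), iff `ρ t = 0` for
`ρ ∈ R (S \ EK S C)` (DIM (d); if `t ∈ EK S C` both sides are true). (d) DIM (d) for
`S \ {t} ⊆ S`, DIM (c) and the definition of `N S`. (e) `rk {t} = 1` by (d). If `rk {t, y} = 1` then
`nul (S \ {t, y}) = nul (S \ {t})`, so (DIM (d)) `ρ y = 0` for all `ρ ∈ R S` with `ρ t = 0`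
(if `y = t` this is clear), and `ρ y = c * ρ t` on `R S` by DIM (e), `c ≠ 0` because `y ∈ N S`.
Conversely, if `ρ y = c * ρ t`, then `R (S \ {t}) = R (S \ {t, y})`. -/
def RkbStmt : Prop :=
  ∀ (ι T : Type) [Fintype ι] (D : Dat ι T) (S : Finset ι),
    (∀ C, C.biUnion (D.E S) = D.EK S C) ∧
    (∀ K C, Tgt (D.rk S) (D.E S) K C ↔
      C ⊆ K ∧ C.Nonempty ∧ D.nul (S \ D.EK S C) + 1 + D.exc S C = D.nul S) ∧
    (∀ C, ∀ t ∈ S, Inc (D.rk S) (D.E S) C t ↔ ∀ ρ ∈ D.R (S \ D.EK S C), ρ t = 0) ∧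
    (∀ t ∈ S, D.rk S {t} = 1 ↔ t ∈ D.N S) ∧
    ∀ t ∈ D.N S, ∀ y ∈ D.N S, D.rk S {t, y} = 1 ↔ y ∈ D.sg S t

/-- **Row RKA** (a cover gives a rank function with circuits; uses IDN, DIM). PROOF. `emp`, `mono`,
`sub`, `one` from DIM (a), (b), (c) (all `nul (S \ A) ≤ nul S`; `S \ (A ∪ B) = (S \ A) ∩ (S \ B)` etc.).
`non`: `y ∈ E S k`, `k ∈ K`, is in `N S` by `out`, so `R (S \ {y})` is a proper subspace of `R S`.
`cir`: the elements of `E S k` are in `N S`, and have value `1` in the coordinate `k` (`cov`: the only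
`j ∈ K` with `x j y ≠ 0` has value `1`), so by IDN `∑_(y ∈ E S k) ρ y = 0` for `ρ ∈ R S`; a relation
which vanishes on `(E S k).erase y` vanishes at `y`: `R (S \ (E S k).erase y) = R (S \ E S k)`. `two`,
`irr`: `IPC.two`, `IPC.irr` (`C.biUnion (E S) = EK S C`). The last part: if all `|E S k| ≤ 2` then
`exc S K = 0` and `μ = nul S` by `IPC.sum`. -/
def RkaStmt : Prop :=
  ∀ (ι T : Type) [Fintype ι] (D : Dat ι T) (S : Finset ι) (K : Finset T) (μ : ℕ),
    D.IPC S K μ → Rks (D.rk S) (D.E S) K ∧ (μ < D.nul S → ∃ k ∈ K, 3 ≤ (D.E S k).card)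

/-- **Row FRA** (the class of a free point; medium, uses IDN, TGA, RKA, RKB). PROOF. `r = D.rk S`,
`E = D.E S`. `t ∈ E k`, so `x k t ≠ 0` and `t ∈ N S` (`out`); by `cov` `k` is the only `j ∈ K` with
`x j t ≠ 0`, and `x k t = 1`. (1) If `y ∈ E k`, `y ≠ t`, then `y ∉ sg S t`: `r {t, y} = 2` by TGA,
but it would be `1` by RKB. So `kpar` (`E k` has another element). (2) If `j ∈ K`, `j ≠ k`,
`y ∈ E j ∩ sg S t`, then `{j}` is tight (TGA) and its span contains `t` (`r {y, t} = 1 = r {y}` by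
RKB, and `{y} ⊆ E j`, TGA (b)), so `j ∈ Btt k t` and `|E j| = 2`, `E j = {y, y'}`. Both are in `N S` with
value `1` (`out`, `cov`), so the coordinate `j` is clean in `S` with owners `y, y'`, and by IDN
`ρ y' = - ρ y`: `y' ∈ sg S t`, `j ∈ par S K t`. `cls`: let `y ∈ sg S t`, `y ≠ t`; `y ∈ N S` because
`t ∈ N S`; let `j ∈ K` with `x j y = 1` (`cov`); `j ≠ k` by (1); use (2). `pair`: `j ∈ par` is not `k`,
(2). `tight`: `C` is tight, `k ∉ C`, `Inc C t` (RKB), so `C ⊆ Btt k t`, all its blocks have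
two elements, `rexc C = 0`, `r (C.biUnion E) = 1`. For `j ∈ C`, `y ∈ E j`:
`r {t, y} ≤ r (insert t (C.biUnion E)) = 1` and `r {t, y} ≥ r {t} = 1`, so `y ∈ sg S t` (RKB). -/
def FraStmt : Prop :=
  ∀ (ι T : Type) [Fintype ι] (D : Dat ι T) (S : Finset ι) (K : Finset T) (μ : ℕ) (k : T) (t : ι),
    D.IPC S K μ → Fre (D.rk S) (D.E S) K k t → D.Fr S K k t

/-- **Row FRB** (different free points have disjoint classes; easy). PROOF. Let `j` be in both. Some
`y ∈ E S j` (`two`) is in `sg S t` and in `sg S t'`: `ρ y = c * ρ t = c' * ρ t'`, `c, c' ≠ 0`. So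
`t' ∈ sg S t`. By `cls` some `j' ∈ par S K t` has `x j' t' ≠ 0`; by `oth` for `t'`, `j' = k'`. By `pair`
`k'` is clean in `S` with owners `t'` and some `y'`, so `|E S k'| = 2`, but `|E S k'| ≥ 3` (`big`). -/
def FrbStmt : Prop :=
  ∀ (ι T : Type) [Fintype ι] (D : Dat ι T) (S : Finset ι) (K : Finset T) (μ : ℕ) (k k' : T)
    (t t' : ι), D.IPC S K μ → D.Fr S K k t → D.Fr S K k' t' → t ≠ t' →
    Disjoint (D.par S K t) (D.par S K t')

/-- **Row FRC** (three free points of a cover; easy, uses RKA, FBG, FRA, FRB). PROOF. RKA, FBG give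
`F`, FRA gives `Fr`; if `q ≠ q'` in `F` then `q.2 ≠ q'.2` (by `tk` and `oth` the point `q.2` determines
the block `q.1`); FRB. -/
def FrcStmt : Prop :=
  ∀ (ι T : Type) [Fintype ι] (D : Dat ι T) (S : Finset ι) (K : Finset T) (μ : ℕ),
    D.IPC S K μ → μ < D.nul S →
    ∃ F : Finset (T × ι), 3 ≤ F.card ∧ (∀ q ∈ F, D.Fr S K q.1 q.2) ∧
      ∀ q ∈ F, ∀ q' ∈ F, q ≠ q' → Disjoint (D.par S K q.2) (D.par S K q'.2)

/-- **Row FRT** (where the class of a free point touches the cover; easy). PROOF. If `b = t` then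
`j = k` by `oth`. If `b ≠ t` then some `j' ∈ par S K t` has `x j' b ≠ 0` (`cls`); `b ∈ N S` because
`t ∈ N S` and `ρ b = c * ρ t`, `c ≠ 0`; by `cov` only one `j ∈ K` has `x j b ≠ 0`, so
`j = j' ∈ par S K t`. -/
def FrtStmt : Prop :=
  ∀ (ι T : Type) [Fintype ι] (D : Dat ι T) (S : Finset ι) (K : Finset T) (μ : ℕ) (k : T) (t : ι),
    D.IPC S K μ → D.Fr S K k t →
    ∀ j ∈ K \ D.par S K t, ∀ b ∈ D.sg S t, D.x j b ≠ 0 → j = k ∧ b = t

/-! ## 3. The induction step -/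

/-- **Row XCL** (a valid set through a free point; uses IDN, CLO). PROOF. `f l = l t`,
`Q = {y ∈ S | ∃ c > 0, l y = c * l t for all solutions l on S}`, `p y` = this `c`, `p t = 1`;
`D.Ray S Q p f`: `l t` is not constant because some `ρ ∈ R S` has `ρ t ≠ 0` (`tN`; add `ρ` to a solution,
IDN). Let `W ∈ sm S t`: `ρ W = - c * ρ t`, `c > 0`. `W ≠ t`, `W ∈ sg S t`, so by `cls` and `pair` there are
`j ∈ par S K t` and `y'` with `Clean S j W y'`; put `kk W = j`, `π W = y'`. `π` is injective on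
`sm S t`: `π W ∈ N S` (`ρ (π W) = - ρ W`) is in only one coordinate of `K` (`cov`), so `π W = π W'`
gives `kk W = kk W'`, and `W` is the other owner of `kk W`. Put `Wc = {W ∈ sm S t | π W ∈ Q}`. `W ∉ Q`
(sign). If `Y ∈ S` and `l Y = 1 - c * l t`, `c > 0`, for all solutions, then `ρ Y = - c * ρ t`, so
`Y ∈ sm S t`, and `l (π Y) = 1 - l Y = c * l t` (IDN): `Y ∈ Wc`. `X₀ = {t}`: `π W = t` is impossible,
because then `x (kk W) t = 1`, so `kk W = k` by `oth`, but `k ∉ par S K t`. CLO gives `X` with `t ∈ X`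
and `D.Vd S X p f`. -/
def XclStmt : Prop :=
  ∀ (ι T : Type) [Fintype ι] (D : Dat ι T) (S : Finset ι) (K : Finset T) (μ : ℕ) (k : T) (t : ι),
    D.LL S → D.IPC S K μ → D.Fr S K k t → ∃ X, D.Valid S X ∧ t ∈ X

/-- **Row IPX** (the cover after the removal of a valid set through a free point; STRONG, uses IDN,
RAY, DIM, FRT). PROOF. By RAY for `X`: `ρ x = p x * s ρ` for `x ∈ X`, `ρ ∈ R S`, so `X ⊆ sp S t ⊆ sg S t`,
`R (S \ X) = {ρ ∈ R S | ρ t = 0}`, `nul (S \ X) + 1 = nul S`. Put `K₂ = K \ par S K t`. By FRT the only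
element of `X` which meets a block of `K₂` is `t`, and it meets only the block `k` (value `1`). So
`E (S \ X) j = E S j` for `j ∈ K₂`, `j ≠ k`, and `E (S \ X) k = (E S k).erase t`. `cov`: let
`a ∈ N (S \ X)`; some `ρ ∈ R S` has `ρ t = 0`, `ρ a ≠ 0`; `a ∈ N S`, take `j ∈ K` from `cov`; `j ∉ par`,
because the elements of the blocks of `par` are parallel to `t` (`a ∈ sg S t` would give `ρ a = 0`). `out`: let `a ∈ S \ X`,
`a ∉ N (S \ X)`, `j ∈ K₂`, and suppose `x j a ≠ 0`. `a ∈ N S` (`out`), `ρ a = 0` whenever `ρ t = 0`, so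
`ρ a = c * ρ t` on `R S` (DIM (e)), `c ≠ 0`, `a ∈ sg S t`; by FRT `a = t ∈ X`: a contradiction. `two`:
clear, `|E S k| ≥ 3`. `sum`: the blocks of `par S K t` have two elements (`pair`; they are not empty by `two`), so
`exc (S \ X) K₂ = exc S K - 1`. `irr`: let `C ⊆ K₂` be not empty, `A = EK S C`. Then
`(S \ X) \ EK (S \ X) C = (S \ A) \ X`, and `R ((S \ A) \ X) = {ρ ∈ R (S \ A) | ρ t = 0}`. By
`IPC.irr` `nul (S \ A) + 1 + exc S C ≤ nul S`. (1) `k ∈ C`: `exc (S \ X) C = exc S C - 1`, and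
`nul ((S \ A) \ X) ≤ nul (S \ A)`. (2) `k ∉ C` and some `ρ ∈ R (S \ A)` has `ρ t ≠ 0`:
`nul ((S \ A) \ X) < nul (S \ A)` (DIM (a), (d)), `exc (S \ X) C = exc S C`. (3) `k ∉ C` and `ρ t = 0` on
`R (S \ A)`: if `nul (S \ A) + 1 + exc S C = nul S` then `C ⊆ par S K t` by `tight`, impossible; so
`nul (S \ A) + 1 + exc S C ≤ nul S - 1`. -/
def IpxStmt : Prop :=
  ∀ (ι T : Type) [Fintype ι] (D : Dat ι T) (S X : Finset ι) (K : Finset T) (μ : ℕ) (k : T) (t : ι),
    D.IPC S K μ → D.Fr S K k t → D.Valid S X → t ∈ X →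
    X ⊆ D.sg S t ∧ D.IPC (S \ X) (K \ D.par S K t) μ

/-- **Row STE** (the smaller situation; easy, uses XTK, XCL, IPX). PROOF. `S \ R` is leafless; XCL
gives `Z` valid in `S \ R` with `t ∈ Z`; XTK gives `X ⊆ Z`, valid in `S`, with `R' = Z \ X ∪ R` valid in
`S \ X`. `(S \ X) \ R' = (S \ R) \ Z`, and `K \ par (S \ R) K t` is an `IPC` of it (IPX). `S \ X` is leafless,
and the sets reachable from `S \ X` are reachable from `S`. -/
def SteStmt : Prop :=
  ∀ (ι T : Type) [Fintype ι] (D : Dat ι T) (S R : Finset ι) (K : Finset T) (μ : ℕ) (k : T) (t : ι),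
    D.NH S R K μ → D.Fr (S \ R) K k t →
    ∃ X Z, X ⊆ Z ∧ t ∈ Z ∧ D.Valid S X ∧ D.Valid (S \ R) Z ∧ D.Valid (S \ X) (Z \ X ∪ R) ∧
      ((∃ j ∈ K \ D.par (S \ R) K t, ∃ b ∈ Z \ X ∪ R, D.x j b ≠ 0) →
        D.NH (S \ X) (Z \ X ∪ R) (K \ D.par (S \ R) K t) μ)

/-- **Row CLM** (the matching of the smaller situation restricts to a clean matching of the class of
`r`; STRONG, uses IDN, RAY). `R` touches `K` only in `(k', r)`, `k' ∉ par (S \ R) K t`, `t ∈ X`.
PROOF. All formulas are for `ρ ∈ R S`. RAY for `S, R`: `ρ b = (p b / p r) * ρ r` for `b ∈ R`,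
`R (S \ R) = {ρ ∈ R S | ρ r = 0}`. RAY for `S, X`: `ρ x = (q x / q t) * ρ t` for `x ∈ X`,
`R (S \ X) = {ρ ∈ R S | ρ t = 0}`. INDEPENDENCE: if `α ρ r + β ρ t = α' ρ r + β' ρ t` for all `ρ ∈ R S`
then `α = α'`, `β = β'`: some `ρ ∈ R (S \ R)` has `ρ t ≠ 0` (`tN`), and some `ρ ∈ R (S \ X)` has `ρ r ≠ 0`
(RAY for `Z \ X ∪ R` in `S \ X`). COMPUTATION: if `ρ z = α ρ r + γ ρ t` and `Clean (S \ X) i z z'` then by
IDN on `S` `ρ z' = - α ρ r - (γ + δ) ρ t`, `δ = ∑_(x ∈ X) x i x * q x / q t ≥ 0`, and `δ = 0` only if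
no `x ∈ X` meets `i`, that is `Clean S i z z'`.
Let `y ∈ (sg S r).erase r`: `ρ y = α ρ r`, `α ≠ 0`. `y ∉ X` (independence), so `y ∈ sg (S \ X) r`,
`y ≠ r`, and there are `i ∈ M`, `y'` with `Clean (S \ X) i y y'`, `y' ∈ (sg (S \ X) r).erase r`. CLAIM: `δ = 0`
for `i`. Put `A = {z ∈ S \ X | ∃ γ > 0, ρ z = α ρ r + γ ρ t}`,
`B = {z ∈ S \ X | ∃ γ > 0, ρ z = - α ρ r - γ ρ t}`. (1) `|B| ≤ |A|`: let `z ∈ B`. `z ∉ R`
(independence), so `z ∈ S \ R`, and `ρ z = - γ ρ t` on `R (S \ R)`, `z ∈ sg (S \ R) t`; `z ≠ t` (otherwise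
`γ = - 1`). By `cls`, `pair` there are `j ∈ par (S \ R) K t`, `z'` with `Clean (S \ R) j z z'`. `R` does
not touch `j` (`j ≠ k'`), so `Clean S j z z'` and `ρ z' = - ρ z = α ρ r + γ ρ t` (IDN); `z' ∉ X` as
`α ≠ 0`. So `z' ∈ A`. The map `z ↦ z'` is injective: `z' ∈ N (S \ R)` is in only one coordinate
`j ∈ K` (`cov`), which has only two owners in `S \ R`. (2) If `δ > 0` for `i`: map every `z ∈ A ∪ {y}` to
its partner for `M`: `z ∈ A` is in `sg (S \ X) r` (`ρ z = α ρ r` on `R (S \ X)`) and `z ≠ r`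
(independence); by the computation the partner has `ρ z' = - α ρ r - (γ + δ_z) ρ t` with
`γ + δ_z > 0` (for `y`: `γ = 0`, `δ_y = δ > 0`), so it is in `B`. Injective, as `M` is a perfect
matching; `y ∉ A`. So `|A| + 1 ≤ |B| ≤ |A|`: a contradiction. Hence `Clean S i y y'` and
`ρ y' = - α ρ r`, `y' ∈ (sg S r).erase r`. So `M' = {i ∈ M | ∃ y ∈ (sg S r).erase r, x i y ≠ 0}` is a
perfect matching of `(sg S r).erase r`, clean in `S`. -/
def ClmStmt : Prop :=
  ∀ (ι T : Type) [Fintype ι] (D : Dat ι T) (S R X Z : Finset ι) (K M : Finset T) (μ : ℕ)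
    (k k' : T) (t r : ι), D.NH S R K μ → D.Fr (S \ R) K k t → X ⊆ Z → t ∈ X →
    D.Valid S X → D.Valid (S \ X) (Z \ X ∪ R) → r ∈ R → k' ∉ D.par (S \ R) K t →
    (∀ j ∈ K, ∀ b ∈ R, D.x j b ≠ 0 → j = k' ∧ b = r) →
    D.PM (S \ X) ((D.sg (S \ X) r).erase r) M →
    ∃ M', D.PM S ((D.sg S r).erase r) M'

/-- **Row NST** (the induction step; medium, uses RAY, FRC, STE, CLM). PROOF. By RAY
`nul S = nul (S \ R) + 1`, so `μ < nul (S \ R)` and FRC gives `F` for `S \ R, K`. For `q = (k, t) ∈ F` let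
`X, Z` be the sets of STE, `R' = Z \ X ∪ R`, `K₂ = K \ par (S \ R) K t`. (A) All touches of `R'` on
`K₂` (pairs `(j, b)`, `j ∈ K₂`, `b ∈ R'`, `x j b ≠ 0`) are equal and have the value `1`: if there is
one then `NH (S \ X) R' K₂ μ` by STE, `nul (S \ X) < nul S` by RAY, so `NC (S \ X) R' K₂`. (B) `R` touches `K` exactly
once: at least once (`tch`); if `(j, b) ≠ (j', b')` are touches of `R` on `K`, then by (A) for every
`(k, t) ∈ F` one of `j, j'` is in `par (S \ R) K t`; of three elements of `F` two have the same one in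
their `par`, but these are disjoint. Let `(k', r)` be the touch. At least two elements of `F` have
`k' ∉ par (S \ R) K t`; take one of them, `(k, t)`. By (A) `x k' r = 1`. `t ∈ X`: otherwise
`t ∈ Z \ X ⊆ R'`, `k ∈ K₂` (`kpar`), `x k t = 1`, so by (A) `t = r`, but `t ∈ S \ R`, `r ∈ R`. `NC (S \ X) R' K₂`
has the touch `(k', r)` (A), so it gives `M` for `r`, and CLM gives `M'`. -/
def NstStmt : Prop :=
  ∀ (ι T : Type) [Fintype ι] (D : Dat ι T) (S R : Finset ι) (K : Finset T) (μ : ℕ),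
    (∀ S' R' K', D.nul S' < D.nul S → D.NH S' R' K' μ → D.NC S' R' K') →
    D.NH S R K μ → μ + 1 < D.nul S → D.NC S R K

end Pool.Agent.KTB
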