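import Pool.Agent.KTB.DefsK

/-!
# Squad KTB, block A: signed relations, closures, the base case, the exchange lemma

GOAL (theorem KAB of StmtsKC): let `D : Dat ι T`. Either some leafless `S` has nullity `0`, or there
is a nonempty `K` such that every element meets `K` at most once, with value `1`, and the rank of
the set `EK univ K` of the elements meeting `K` is smaller than `2 |K|`.

CONVENTIONS. For `l` with `D.Sol S l` the numbers `l a` are affine functions on the set of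
solutions supported on `S`; their linear parts are the functions `ρ ↦ ρ a` on `D.R S`.
-/

set_option autoImplicit false

namespace Pool.Agent.KTB

open Finset
open scoped Classical

/-- **Row IDN** (identities; easy). PROOF. `l = l0 + (l - l0)`, so `∑ a, x i a * l a = 1 + 0` by
`D.h0`, `D.h1`; the terms with `a ∉ S` are `0`. The third and fourth parts: `D.rel` is a
submodule. Clean: the sum over `S` in the identity of the coordinate `k` has only the two terms
`y`, `y'`, with values `1`. -/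
def IdnStmt : Prop :=
  ∀ (ι T : Type) [Fintype ι] (D : Dat ι T) (S : Finset ι),
    (∀ l, D.Sol S l → ∀ i, ∑ a ∈ S, (D.x i a : ℚ) * l a = 1) ∧
    (∀ ρ ∈ D.R S, ∀ i, ∑ a ∈ S, (D.x i a : ℚ) * ρ a = 0) ∧
    (∀ l l', D.Sol S l → D.Sol S l' → l' - l ∈ D.R S) ∧
    (∀ l, D.Sol S l → ∀ ρ ∈ D.R S, D.Sol S (l + ρ)) ∧
    ∀ k y y', D.Clean S k y y' →
      (∀ l, D.Sol S l → l y + l y' = 1) ∧ ∀ ρ ∈ D.R S, ρ y + ρ y' = 0

/-- **Row RAY** (basic facts on proportional sets; uses IDN). `D.Ray S Q p f`, `Q` nonempty,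
`r₀ ∈ Q`.
PROOF. (a) The identity of the coordinate `i` on `S`: the terms are `l Y` (value `1`), the terms
`r ∈ Q`, `l r = p r * f l`, and zeros. (b) `s := (p r₀)⁻¹ •` (the projection on the coordinate `r₀`).
For solutions `l, l'` on `S`: `l' r - l r = p r * (f l' - f l)` for `r ∈ Q`, in particular for
`r₀`, so `f l' - f l = s (l' - l)`; for `ρ ∈ D.R S` take `l' = l + ρ` (IDN): `ρ r = p r * s ρ`.
`s (l' - l) ≠ 0` for the two solutions with `f l ≠ f l'`. (c) a solution `l` on `S` with `f l = 0`: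
`l₁ + t • (l₂ - l₁)`, where `f l₁ ≠ f l₂` and `f l₁ + t (f l₂ - f l₁) = 0`; if `f l = 0` then
`l r = 0` for `r ∈ Q`, so `l` is a solution on `S \ Q`, and conversely (`l r₀ = 0`). (d) the kernel
of `s` on `D.R S` is `D.R (S \ Q)`; `s` is onto `ℚ` on `D.R S`, rank nullity. (e) if `x i r = 0` for
all `r ∈ Q`, then `i` is private for `Y` in `S`, by `LL S` there is another private `j` of `Y` in
`S`, which is private in `S \ Q`, too (`Y ∉ Q`). So some `x i r ≥ 1` and the sum is positive. -/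
def RayStmt : Prop :=
  ∀ (ι T : Type) [Fintype ι] (D : Dat ι T) (S Q : Finset ι) (p : ι → ℚ) (f : (ι → ℚ) → ℚ),
    D.Ray S Q p f → Q.Nonempty →
    (∀ Y i, D.Priv (S \ Q) Y i → ∀ l, D.Sol S l →
      l Y = 1 - (∑ r ∈ Q, (D.x i r : ℚ) * p r) * f l) ∧
    (∃ s : (ι → ℚ) →ₗ[ℚ] ℚ, (∀ ρ ∈ D.R S, ∀ r ∈ Q, ρ r = p r * s ρ) ∧
      (∀ l l', D.Sol S l → D.Sol S l' → f l' - f l = s (l' - l)) ∧
      (∃ ρ ∈ D.R S, s ρ ≠ 0) ∧ ∀ ρ ∈ D.R S, (ρ ∈ D.R (S \ Q) ↔ s ρ = 0)) ∧
    (∃ l, D.Sol (S \ Q) l) ∧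
    (∀ l, D.Sol (S \ Q) l ↔ D.Sol S l ∧ f l = 0) ∧
    D.nul (S \ Q) + 1 = D.nul S ∧
    (D.LL S → ∀ Y i, D.Priv (S \ Q) Y i → (∀ j, D.Priv (S \ Q) Y j → j = i) →
      (∃ r ∈ Q, D.x i r ≠ 0) ∧ 0 < ∑ r ∈ Q, (D.x i r : ℚ) * p r)

/-- **Row PEL** (peeling; uses RAY). No nonempty part of the proportional set `Q` can be removed
from the leafless set `S`. Then the elements of `Q` can be put back one after the other (`h` =
the time at which `A` is put back), each time because of a leaf.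
PROOF. Induction on `|Q|` (for all `Q` with the property; `S, p, f` fixed). `Q = ∅`: nothing. Let
`Q ≠ ∅`. There is a solution on `S \ Q` (RAY) and `S \ Q` is not leafless, so it has a leaf `(Y₀, i₀)`:
`i₀` private for `Y₀` in `S \ Q`, and no other one. By RAY some `A₀ ∈ Q` has `x i₀ A₀ ≠ 0`. Apply
the induction hypothesis to `Q' = Q.erase A₀` and get `h', Y', κ'`. Put `h A₀ = 0`, `Y A₀ = Y₀`,
`κ A₀ = i₀`, `h A = h' A + 1` etc. for `A ∈ Q'`. For `A ∈ Q'` the sets `{r ∈ Q | h A ≤ h r}` and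
`{r ∈ Q' | h' A ≤ h' r}` are equal; for `A₀` it is `Q`. To check: (1) `Y' A ∈ S \ Q`: it is in
`S \ Q'`, so it must be shown that it is not `A₀`. Put `Q₁ = {r ∈ Q' | h' A ≤ h' r}`. By RAY(a) for
`Q₁` (a `Ray` set as well) `l (Y' A) = 1 - c * f l` with `c > 0`, while `l A₀ = p A₀ * f l`, and `f` is
not constant: `1 = (p A₀ + c) * f l` for two different values of `f l` is impossible. (2) `Y' A ≠ Y₀`:
otherwise the private coordinate `κ' A` of `Y₀` in `S \ Q₁` is private in `S \ Q`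
(`Y₀ ∉ Q`), so it is `i₀`; but `x i₀ A₀ ≠ 0` and `A₀ ∈ S \ Q₁`, `A₀ ≠ Y₀`: not private. -/
def PelStmt : Prop :=
  ∀ (ι T : Type) [Fintype ι] [Nonempty T] (D : Dat ι T) (S Q : Finset ι) (p : ι → ℚ) (f : (ι → ℚ) → ℚ),
    D.LL S → D.Ray S Q p f → (∀ R, R ⊆ Q → R.Nonempty → ¬ D.LL (S \ R)) →
    ∃ (h : ι → ℕ) (Y : ι → ι) (κ : ι → T), Set.InjOn h (Q : Set ι) ∧ Set.InjOn Y (Q : Set ι) ∧
      ∀ A ∈ Q, Y A ∈ S ∧ Y A ∉ Q ∧ D.x (κ A) A ≠ 0 ∧
        D.Priv (S \ Q.filter fun r => h A ≤ h r) (Y A) (κ A) ∧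
        ∀ j, D.Priv (S \ Q.filter fun r => h A ≤ h r) (Y A) j → j = κ A

/-- **Row STS** (signed relations; STRONG, uses IDN, RAY, PEL). `ρ` is a relation on which no valid
set is negative.
PROOF. `Nm = {a | ρ a < 0}` (a part of `S`). For `a ∈ Nm` let `Q a` be the set of the `b ∈ Nm` for
which there is `c > 0` with `l b = c * l a` for all solutions `l` on `S`. These sets form a partition
of `Nm`. For `Q = Q a` put `p b = c`, `f l = l a`; `D.Ray S Q p f` (take `l` and `l + ρ`). If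
`R ⊆ Q` is nonempty and `S \ R` is leafless, then `R` is valid in `S` and `ρ` is negative on it:
excluded. So PEL applies to each `Q` and gives `h, Y, κ` (choose them as functions of the set `Q`; `T` is not
empty if `Nm` is not empty, because `S \ Q` has a leaf).
For `A ∈ Nm` put `Q_A = {r ∈ Q A | h A ≤ h r}`, which contains `A`. `κ A` is private for `Y A` in
`S \ Q_A`, so by IDN `ρ (Y A) = - ∑_(r ∈ Q_A) x (κ A) r * ρ r ≥ - ρ A > 0`, and on solutions
`l (Y A) = 1 - c_A * l A`, `c_A > 0` (RAY(a),(e), `p`, `f` rescaled). `Y` is injective on `Nm`: in one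
`Q` by PEL; if `Y A = Y B` then `c_A * l A = c_B * l B` for all `l`, so `Q A = Q B`. Hence
`∑ ρ = ∑_(ρ > 0) ρ + ∑_(Nm) ρ ≥ ∑_(A ∈ Nm) (ρ (Y A) + ρ A) ≥ 0`.
If the sum is `0`: `Y` maps `Nm` onto `{ρ > 0}`, and `ρ (Y A) = - ρ A`, so `x (κ A) r = 0` for
`r ∈ Q_A`, `r ≠ A`, and `x (κ A) A = 1`: the coordinate `κ A` is clean in `S` with owners `Y A`, `A`.
`M = κ '' Nm` is a perfect matching of the support of `ρ` (every element `a` of the support is in
exactly one pair `{A, Y A}`; a coordinate of `M` which contains `a` is `κ A` for this `A`).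
UNIQUE: let `M'` be another one. CLAIM: `κ A ∈ M'` for all `A ∈ Nm`, by strong induction on `h A` in
the set `Q A`. Let `k ∈ M'` be the coordinate of `M'` which contains `Y A`, clean with owners `Y A`
and `y'` in the support. `ρ y' = - ρ (Y A) < 0` and `l y' = 1 - l (Y A) = c_A * l A` (IDN), so
`y' ∈ Q A`. If `h A ≤ h y'` then `k` is private for `Y A` in `S \ Q_A` (its owners are `Y A` and
`y' ∈ Q_A`), so `k = κ A` by PEL. If `h y' < h A`, then `κ y' ∈ M'` by induction, both `κ y'` and `k`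
contain `y'`, so they are equal, and the owner `Y A` of `k` must be `Y y'` or `y'`: impossible
(`Y` injective; `ρ (Y A) > 0`). So `M ⊆ M'`; conversely `k ∈ M'` contains some `a` of the support, `a`
is contained in some `κ A ∈ M ⊆ M'`, so `k = κ A`. -/
def StsStmt : Prop :=
  ∀ (ι T : Type) [Fintype ι] (D : Dat ι T) (S : Finset ι), D.LL S → ∀ ρ ∈ D.R S, ρ ≠ 0 →
    (∀ R, D.Valid S R → ∀ r ∈ R, 0 ≤ ρ r) →
    0 ≤ ∑ a, ρ a ∧ (∑ a, ρ a = 0 →
      ∃ M, D.PM S (univ.filter fun a => ρ a ≠ 0) M ∧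
        ∀ M', D.PM S (univ.filter fun a => ρ a ≠ 0) M' → M' = M)

/-- **Row GNR** (a generic relation; easy). PROOF. For `a ∈ D.N S` the relations `ρ ∈ D.R S` with
`ρ a = 0` form a proper subspace of `D.R S`. A vector space over the infinite field `ℚ` is not a
finite union of proper subspaces (`Subspace.biUnion_ne_univ_of_top_notMem`). -/
def GnrStmt : Prop :=
  ∀ (ι T : Type) [Fintype ι] (D : Dat ι T) (S : Finset ι), ∃ ρ ∈ D.R S, ∀ a ∈ D.N S, ρ a ≠ 0

/-- **Row TRM** (sets without valid subsets; uses STS, GNR). PROOF. If `D.N S` is empty take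
`M = ∅`; a perfect matching of `∅` is empty. Otherwise take `ρ` from GNR, `ρ ≠ 0`; its support is
`D.N S` (`ρ` vanishes outside `S`, and `ρ a ≠ 0` implies `a ∈ N S`). STS for `ρ` and for `-ρ` gives
`∑ ρ = 0`, and then the matching and its uniqueness. -/
def TrmStmt : Prop :=
  ∀ (ι T : Type) [Fintype ι] (D : Dat ι T) (S : Finset ι), D.LL S → (∀ R, ¬ D.Valid S R) →
    ∃ M, D.Tm S M

/-- **Row IPM** (the matching of a terminal set is an irreducible perfect cover; easy, uses IDN).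
PROOF. Every `k ∈ M` is clean in `S` with two owners in `N S`, so `|E S k| = 2`, `exc S K' = 0`;
`cov`: the unique `k ∈ M` with `x k a ≠ 0` has value `1`; `out`: the owners of `k` are in `N S`;
`irr`: for `k ∈ K'` and an owner `y ∈ N S` of `k` some `ρ ∈ R S` has `ρ y ≠ 0`, so
`R (S \ EK S K') < R S` and the dimension is smaller. -/
def IpmStmt : Prop :=
  ∀ (ι T : Type) [Fintype ι] (D : Dat ι T) (S : Finset ι) (M : Finset T), D.Tm S M →
    D.IPC S M (D.nul S)

/-- **Row TUN** (if all valid sets are parallel there is no touch; uses IDN, RAY, STS, GNR). PROOF.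
`nul (S \ R) = nul S - 1 ≥ 1` (RAY), so `N (S \ R)` is not empty; take a generic `ρ ∈ R (S \ R)` (GNR),
`ρ ≠ 0`, `ρ ∈ R S`; its support is `N (S \ R)`. By hypothesis every valid set of `S` has `ρ = 0` and
`-ρ = 0` on it, so STS for `ρ` and `-ρ` gives `∑ ρ = 0` and a perfect matching `M*` of `N (S \ R)` by
coordinates which are clean in `S`, hence clean in `S \ R` (the owners are in `S \ R`). By the
uniqueness in `Tm (S \ R) M`, `M* = M`. So for `k ∈ M` the owners of `k` in `S` are in `S \ R`. -/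
def TunStmt : Prop :=
  ∀ (ι T : Type) [Fintype ι] (D : Dat ι T) (S R : Finset ι) (M : Finset T), D.LL S →
    D.Valid S R → D.Tm (S \ R) M → 2 ≤ D.nul S →
    (∀ R', D.Valid S R' → ∀ ρ ∈ D.R (S \ R), ∀ r ∈ R', ρ r = 0) →
    ∀ k ∈ M, ∀ r ∈ R, D.x k r = 0

/-- **Row PRA** (the elements of the negative ray are paired by clean coordinates; uses IDN, RAY).
`Ra`, `Rb` are two valid sets which are not parallel, `Ma`, `Mb` perfect matchings of
`N (S \ Ra)`, `N (S \ Rb)`, clean in `S \ Ra`, `S \ Rb`.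
PROOF. `sa, sb` = the linear functions of `Ra, Rb` (RAY). All equations are between functions on
`R S`; write `v y` for `ρ ↦ ρ y`. `N (S \ Ra)` is the set of the `y ∈ S` for which `v y` is not a
multiple of `sa` (`R (S \ Ra)` is the kernel of `sa` in `R S`; elements of `Ra` are multiples), the
same for `b`. For `k ∈ Ma` with owners `y, y'` in `S \ Ra`: `v y + v y' = - θ sa`,
`θ = ∑_(r ∈ Ra) x k r * pa r ≥ 0` (IDN for `S`), and `θ = 0` iff no `r ∈ Ra` meets `k`, iff `k` is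
clean in `S`. Same for `Mb`. `sa, sb` are linearly independent on `R S`.
Let `A` be the set of the `y ∈ S` with `v y = - β sb + α sa`, `B` the set of the `y ∈ S` with
`v y = β sb - α sa`, where `α, β > 0` may depend on `y`. An element `y ∈ A` is in `N (S \ Ra)`; let
`y'` be its partner for `Ma`: `v y' = β sb - (α + θ) sa`, so `y' ∈ B`. An element `y ∈ B` is in
`N (S \ Rb)`, its partner for `Mb` has `v y' = - (β + θ) sb + α sa`: it is in `A`. Both maps are
injective (matchings), so `|A| = |B|` and the partner map of `Ma` is a bijection from `A` to `B`; the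
partner of an element of `B` for `Ma` is in `A`.
Now let `W ∈ sm S t`: `v W = - c sb`, `c > 0` (`ρ t = pb t * sb ρ`). `W ∈ N (S \ Ra)`, its partner
`y'` for `Ma` has `v y' = c sb - θ sa`. If `θ > 0` then `y' ∈ B` has the partner `W ∉ A`: a
contradiction. So `θ = 0`, `v y' = c sb`, `y' ∈ sp S t` and the coordinate is clean in `S`. -/
def PraStmt : Prop :=
  ∀ (ι T : Type) [Fintype ι] (D : Dat ι T) (S Ra Rb : Finset ι) (pa pb : ι → ℚ)
    (fa fb : (ι → ℚ) → ℚ) (Ma Mb : Finset T), D.Vd S Ra pa fa → D.Vd S Rb pb fb →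
    D.PM (S \ Ra) (D.N (S \ Ra)) Ma → D.PM (S \ Rb) (D.N (S \ Rb)) Mb →
    (∃ ρ ∈ D.R (S \ Ra), ∃ r ∈ Rb, ρ r ≠ 0) → (∃ ρ ∈ D.R (S \ Rb), ∃ r ∈ Ra, ρ r ≠ 0) →
    ∀ t ∈ Rb, ∀ W ∈ D.sm S t, ∃ k ∈ Ma, ∃ A ∈ D.sp S t, D.Clean S k W A

/-- **Row BSA** (the unmatched elements `U` of the positive ray and the sum of their norms; uses IDN,
RAY, PRA). PROOF. By PRA choose for `W ∈ sm S t` a coordinate `kk W ∈ Ma` and `π W ∈ sp S t`, clean in
`S` with owners `W, π W`. `π` is injective on `sm S t` (`π W ∈ N (S \ Ra)`, it is in only one coordinate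
of `Ma`, and `W` is the other owner). `U = sp S t \ π '' (sm S t)`. SUM: choose `ρ ∈ R S` with
`sa ρ = 0`, `sb ρ = 1` (`sa, sb` of RAY for `Ra, Rb`; the two nonparallelism hypotheses). Sum over
`k ∈ Mb` of the identities IDN on `S`: `∑_(y ∈ N (S \ Rb)) ρ y + Θ = 0`,
`Θ = ∑_(k ∈ Mb) ∑_(r ∈ Rb) x k r * pb r` (each `y ∈ N (S \ Rb)` is in exactly one `k ∈ Mb`, with value
`1`; `k` has only two owners in `S \ Rb`). In the same way
`∑_(y ∈ N (S \ Ra)) ρ y = 0` since `sa ρ = 0`. `N (S \ Ra)` is `N S` without the multiples of `sa`,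
on which `ρ` vanishes, so `∑_(y ∈ S) ρ y = 0`. `N (S \ Rb)` is `N S` without
`sp S t ∪ sm S t`, so `∑_(sp ∪ sm) ρ y = Θ`. The pairs `W, π W` cancel (IDN), so
`∑_(u ∈ U) ρ u = Θ`. Finally `pb t * ρ u = q u * ρ t` and `ρ t = pb t * sb ρ = pb t`, so `ρ u = q u`. -/
def BsaStmt : Prop :=
  ∀ (ι T : Type) [Fintype ι] (D : Dat ι T) (S Ra Rb : Finset ι) (pa pb : ι → ℚ)
    (fa fb : (ι → ℚ) → ℚ) (Ma Mb : Finset T), D.Vd S Ra pa fa → D.Vd S Rb pb fb →
    D.PM (S \ Ra) (D.N (S \ Ra)) Ma → D.PM (S \ Rb) (D.N (S \ Rb)) Mb →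
    (∃ ρ ∈ D.R (S \ Ra), ∃ r ∈ Rb, ρ r ≠ 0) → (∃ ρ ∈ D.R (S \ Rb), ∃ r ∈ Ra, ρ r ≠ 0) →
    ∀ t ∈ Rb, ∃ (U : Finset ι) (π : ι → ι) (kk : ι → T), U ⊆ D.sp S t ∧
      Set.BijOn π (D.sm S t : Set ι) ((D.sp S t \ U : Finset ι) : Set ι) ∧
      (∀ W ∈ D.sm S t, D.Clean S (kk W) W (π W)) ∧
      ∀ q : ι → ℚ, (∀ u ∈ D.sp S t, ∀ ρ ∈ D.R S, pb t * ρ u = q u * ρ t) →
        ∑ u ∈ U, q u = ∑ k ∈ Mb, ∑ r ∈ Rb, (D.x k r : ℚ) * pb r

/-- **Row SML** (parallel valid sets have the same function; uses IDN, RAY). `A` = the common value of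
`N (S \ R)` and `N (S \ R')`.
PROOF. For a solution `l` on `S` sum the identities of the coordinates `k ∈ M` (IDN):
`∑_(y ∈ A) l y + Θ * f l = |M|`, `Θ = ∑_(k ∈ M) ∑_(r ∈ R) x k r * p r > 0` by the touch; the same for
`M'`: `∑_(y ∈ A) l y + Θ' * f' l = |M'|`, `Θ' ≥ 0`. `|M| = |M'|` because both are half of `|A|` (each
element of `A` is in exactly one coordinate, each coordinate has exactly two owners in `A`). So
`Θ * f l = Θ' * f' l`; `f` is not constant, so `Θ' ≠ 0`; `c = Θ / Θ'`. -/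
def SmlStmt : Prop :=
  ∀ (ι T : Type) [Fintype ι] (D : Dat ι T) (S R R' : Finset ι) (p p' : ι → ℚ)
    (f f' : (ι → ℚ) → ℚ) (M M' : Finset T), D.Vd S R p f → D.Vd S R' p' f' →
    D.N (S \ R) = D.N (S \ R') →
    D.PM (S \ R) (D.N (S \ R)) M → D.PM (S \ R') (D.N (S \ R')) M' →
    (∃ k ∈ M, ∃ r ∈ R, D.x k r ≠ 0) →
    ∃ c : ℚ, 0 < c ∧ ∀ l, D.Sol S l → f' l = c * f l

/-- **Row CLO** (closure; uses IDN, RAY). `Q` is a proportional set, `Wc` a set of elements outside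
`Q` which are paired with elements `π W` of `Q` by clean coordinates `kk W`; `Wc` contains all
elements of the form `l Y = 1 - c * f l`, `c > 0`. A set `X ⊆ Q` is CLOSED if `π W ∈ X` whenever
`W ∈ Wc` has a private coordinate `j ≠ kk W` in `S \ X`. `X` = the smallest closed set containing
`X₀`.
PROOF. `Q` is closed. If `X, X'` are closed, so is `X ∩ X'` (`W ∉ Q`, so a coordinate which is
private for `W` in `S \ (X ∩ X')` is private in `S \ X` and in `S \ X'`). So the intersection `X` of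
all closed sets `X'` with `X₀ ⊆ X' ⊆ Q` is the smallest one (intersect over the finite set of
these). (1) Let `X₁ = X₀ ∪ {x ∈ X | some W ∈ Wc has π W = x and a private j ≠ kk W in S \ X}`. `X₁` is
closed: if `W` has a private `j ≠ kk W` in `S \ X₁` then also in `S \ X`, so `π W ∈ X`, so
`π W ∈ X₁`. Hence `X = X₁`. (2) `X` nonempty, `S \ X` is leafless: it has a solution (RAY). Suppose
`(Y, i)` is a leaf (`i` private for `Y` in `S \ X`, no other). By RAY for the set `X` (a `Ray` set with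
the same `p, f`) `l Y = 1 - c * f l`, `c > 0`, and some `x ∈ X` has `x i x ≠ 0`. So `Y ∈ Wc`. If
`i ≠ kk Y`: `X` closed gives `π Y ∈ X`, so `kk Y` is private for `Y` in `S \ X` (its owners are `Y` and
`π Y ∈ X`), `kk Y = i`, a contradiction. So `i = kk Y`, and the element `x ∈ X` with `x i x ≠ 0` is
`π Y` (`Clean`). By (1) either `π Y ∈ X₀`, and by hypothesis `Y` has a private `j ≠ kk Y` in `S \ X₀`,
hence in `S \ X`; or there is `W` with `π W = π Y`, so `W = Y`, with a private `j ≠ kk Y`: not a leaf.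
(3) norms: let `b > 0`, `b ≤ p x` for `x ∈ X₀`. `X₂ = {x ∈ X | b ≤ p x}` is closed: let `W` have a
private `j ≠ kk W` in `S \ X₂`. Then also in `S \ X`, so `π W ∈ X`. RAY(a) for `X₂` and
`l W = 1 - l (π W) = 1 - p (π W) * f l` give `p (π W) = ∑_(x ∈ X₂) x j x * p x` (`f` is not constant;
if `X₂` is empty or no `x ∈ X₂` meets `j` then `l W = 1` by IDN, impossible); one of the terms is
`≥ b`, so `p (π W) ≥ b`. Hence `X = X₂`. -/
def CloStmt : Prop :=
  ∀ (ι T : Type) [Fintype ι] (D : Dat ι T) (S Q Wc X₀ : Finset ι) (p : ι → ℚ)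
    (f : (ι → ℚ) → ℚ) (π : ι → ι) (kk : ι → T), D.LL S → D.Ray S Q p f → Wc ⊆ S →
    (∀ W ∈ Wc, W ∉ Q ∧ π W ∈ Q ∧ D.Clean S (kk W) W (π W)) →
    Set.InjOn π (Wc : Set ι) →
    (∀ Y ∈ S, ∀ c : ℚ, 0 < c → (∀ l, D.Sol S l → l Y = 1 - c * f l) → Y ∈ Wc) →
    X₀ ⊆ Q → (∀ W ∈ Wc, π W ∈ X₀ → ∃ j, j ≠ kk W ∧ D.Priv (S \ X₀) W j) →
    ∃ X, X₀ ⊆ X ∧ X ⊆ Q ∧
      (∀ W ∈ Wc, ∀ j, j ≠ kk W → D.Priv (S \ X) W j → π W ∈ X) ∧
      (∀ X' ⊆ Q, X₀ ⊆ X' → (∀ W ∈ Wc, ∀ j, j ≠ kk W → D.Priv (S \ X') W j → π W ∈ X') →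
        X ⊆ X') ∧
      (∀ x ∈ X, x ∉ X₀ → ∃ W ∈ Wc, π W = x) ∧
      (X.Nonempty → D.Vd S X p f) ∧
      ∀ b : ℚ, 0 < b → (∀ x ∈ X₀, b ≤ p x) → ∀ x ∈ X, b ≤ p x

/-! ## The base case -/

/-- the situation of the base case: `t ∈ R` represents the ray, `U` = the unmatched elements of the
positive ray -/
structure Dat.BC {ι T : Type} [Fintype ι] (D : Dat ι T) (S R : Finset ι) (p : ι → ℚ)
    (f : (ι → ℚ) → ℚ) (M : Finset T) (t : ι) (U : Finset ι) (π : ι → ι) (kk : ι → T) : Prop where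
  ll : D.LL S
  vd : D.Vd S R p f
  tm : D.Tm (S \ R) M
  tR : t ∈ R
  all : ∀ R', D.Valid S R' → ∃ M', D.Tm (S \ R') M'
  tch : ∃ k ∈ M, ∃ r ∈ R, D.x k r ≠ 0
  us : U ⊆ D.sp S t
  bij : Set.BijOn π (D.sm S t : Set ι) ((D.sp S t \ U : Finset ι) : Set ι)
  cln : ∀ W ∈ D.sm S t, D.Clean S (kk W) W (π W)
  sum : ∀ q : ι → ℚ, (∀ u ∈ D.sp S t, ∀ ρ ∈ D.R S, p t * ρ u = q u * ρ t) →
    ∑ u ∈ U, q u = ∑ k ∈ M, ∑ r ∈ R, (D.x k r : ℚ) * p r

/-- the proportional class `Q` of `f` with norms `q`, and a large valid set `Rh` in it -/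
structure Dat.BH {ι T : Type} [Fintype ι] (D : Dat ι T) (S R : Finset ι) (p : ι → ℚ)
    (f : (ι → ℚ) → ℚ) (t : ι) (U : Finset ι) (π : ι → ι) (kk : ι → T) (Q Rh : Finset ι)
    (q : ι → ℚ) : Prop where
  ray : D.Ray S Q q f
  Qmax : ∀ y ∈ S, (∃ c : ℚ, 0 < c ∧ ∀ l, D.Sol S l → l y = c * f l) → y ∈ Q
  Qsp : Q ⊆ D.sp S t
  RRh : R ⊆ Rh
  URh : U ⊆ Rh
  RhQ : Rh ⊆ Q
  pq : ∀ r ∈ R, q r = p r
  vd : D.Vd S Rh q f
  clo : ∀ W ∈ D.sm S t, ∀ j, j ≠ kk W → D.Priv (S \ Rh) W j → π W ∈ Rh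
  xu : ∀ u ∈ U, ∃ X ⊆ Rh, u ∈ X ∧ D.Vd S X q f ∧ ∀ x ∈ X, q u ≤ q x

/-- **Row UPH** (the unmatched elements are multiples of the same function; uses IDN, RAY, SML,
CLO). PROOF. Let `u ∈ U`; `ρ u = c₀ * ρ t` on `R S`, `c₀ > 0`. Put `fu l = l u`,
`Q = {y ∈ S | ∃ c > 0, l y = c * l u on solutions}`, `pu y` = this `c`; `D.Ray S Q pu fu` (`l u` is not
constant because some `ρ ∈ R S` has `ρ t ≠ 0`, RAY). `Q ⊆ sp S t`. `Wc = {W ∈ sm S t | π W ∈ Q}`. CLO:
the elements of `sm S t` are not in `sp S t` (`ρ t ≠ 0` for some `ρ`), so not in `Q`; `π` is injective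
on `sm S t`; if `Y ∈ S`, `l Y = 1 - c * l u`, `c > 0`, on solutions, then `ρ Y = - c * ρ u`, so
`Y ∈ sm S t`, and `l (π Y) = 1 - l Y = c * l u` (IDN) so `π Y ∈ Q`. `X₀ = {u}`: no `π W` is in `U`. CLO
gives `X` with `D.Vd S X pu fu`. By `all` there is `M'` with `D.Tm (S \ X) M'`. `N (S \ R) = N (S \ X)`:
by RAY `R (S \ R)` is `{ρ ∈ R S | ρ t = 0}` and `R (S \ X)` is `{ρ ∈ R S | ρ u = 0}`, the same set;
an element `a ∈ S` with `ρ a ≠ 0` for some `ρ` in it is neither in `R` nor in `X`. SML (for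
`R, X`, the touch of `M` by `R`): `l u = fu l = c * f l`, `c > 0`. -/
def UphStmt : Prop :=
  ∀ (ι T : Type) [Fintype ι] (D : Dat ι T) (S R : Finset ι) (p : ι → ℚ) (f : (ι → ℚ) → ℚ)
    (M : Finset T) (t : ι) (U : Finset ι) (π : ι → ι) (kk : ι → T),
    D.BC S R p f M t U π kk → ∀ u ∈ U, ∃ c : ℚ, 0 < c ∧ ∀ l, D.Sol S l → l u = c * f l

/-- **Row TCH** (the touching elements are in every valid set; uses RAY). PROOF. `R' ⊆ R`. By RAY
`R (S \ R)` and `R (S \ R')` are both `{ρ ∈ R S | ρ r' = 0}` for any `r' ∈ R'` (on `R` all `ρ r` are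
proportional with nonzero factors), so they are equal, and the elements of `R \ R'` are not in
`N (S \ R')`: `N (S \ R') = N (S \ R)`. A coordinate of `M'` is clean in `S \ R'` with owners in
`N (S \ R') ⊆ S \ R`, so it is clean in `S \ R`. So `M'` is a perfect matching of `N (S \ R)`, clean in
`S \ R`, `M' = M`. Let `k ∈ M = M'`, `b ∈ R`, `x k b ≠ 0`. In `S \ R'` the coordinate `k` has only two
owners, which are in `S \ R`; so `b ∉ S \ R'`, `b ∈ R'`. -/
def TchStmt : Prop :=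
  ∀ (ι T : Type) [Fintype ι] (D : Dat ι T) (S R R' : Finset ι) (p p' : ι → ℚ)
    (f f' : (ι → ℚ) → ℚ) (M M' : Finset T), D.Vd S R p f → D.Vd S R' p' f' → R' ⊆ R →
    D.Tm (S \ R) M → D.Tm (S \ R') M' → M' = M ∧ ∀ k ∈ M, ∀ b ∈ R, D.x k b ≠ 0 → b ∈ R'

/-- **Row BRH** (construction of `Rh`; uses IDN, RAY, CLO). PROOF.
`Q = {y ∈ S | ∃ c > 0, l y = c * f l on solutions}`, `q y` = this `c` (unique, `f` is not constant).
`R ⊆ Q`, `q = p` on `R`, `U ⊆ Q` by hypothesis. `Q ⊆ sp S t`: `ρ y = c * s ρ`, `ρ t = p t * s ρ` (RAY).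
`Wc = {W ∈ sm S t | π W ∈ Q}`; the hypotheses of CLO are checked as in UPH. `X₀ = R ∪ U`: if
`W ∈ Wc`, `π W ∈ R ∪ U`, then `π W ∉ U` (bijection onto `sp S t \ U`), so `π W ∈ R`, `kk W` is private
for `W` in `S \ R` (owners `W`, `π W`, and `W ∉ R ⊆ sp S t`), and `S \ R` is leafless, so `W` has
another private `j` in `S \ R`, which is private in `S \ X₀` since `W ∉ X₀ ⊆ sp S t`. CLO gives
`Rh`, valid, closed. `clo` for all `W ∈ sm S t`: if `j ≠ kk W` is private for `W` in `S \ Rh` then by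
RAY(a) for `Rh` `l W = 1 - c * f l`, where `c = ∑_(Rh) x j r * q r`; `c > 0` because `l W` is not
constant (`W ∈ sm S t`), so `l (π W) = c * f l`, `π W ∈ Q` (`Qmax`), `W ∈ Wc`, and CLO applies. `xu`:
CLO with `X₀ = {u}` gives `X` (the condition on `X₀` is empty); `X ⊆ Rh` because `Rh` is closed and
contains `u`; the norms are `≥ q u`. -/
def BrhStmt : Prop :=
  ∀ (ι T : Type) [Fintype ι] (D : Dat ι T) (S R : Finset ι) (p : ι → ℚ) (f : (ι → ℚ) → ℚ)
    (M : Finset T) (t : ι) (U : Finset ι) (π : ι → ι) (kk : ι → T),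
    D.BC S R p f M t U π kk → (∀ u ∈ U, ∃ c : ℚ, 0 < c ∧ ∀ l, D.Sol S l → l u = c * f l) →
    ∃ (Q Rh : Finset ι) (q : ι → ℚ), D.BH S R p f t U π kk Q Rh q

/-- **Row BPL** (peeling of `Rh` without a touching element; uses IDN, RAY, PEL, TCH). `r ∈ R`
touches `k ∈ M`.
PROOF. Let `Mh` be the matching of `S \ Rh` (`all`). TCH for `R ⊆ Rh`: `M = Mh`. If
`R' ⊆ Rh.erase r` is nonempty and `S \ R'` is leafless, then `D.Vd S R' q f`, and TCH for `R' ⊆ Rh`
(with its matching from `all`) says `r ∈ R'` (`k ∈ Mh`, `r ∈ Rh`, `x k r ≠ 0`): a contradiction. So PEL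
applies to `Rh.erase r` and gives `h, Y, κ`. Let `A ∈ Rh.erase r`,
`Q_A = {b ∈ Rh.erase r | h A ≤ h b}` (contains `A`). By RAY for `Q_A`: `l (Y A) = 1 - c * f l` with
`c = ∑_(Q_A) x (κ A) b * q b > 0`, so `ρ (Y A) = - c * s ρ` and `Y A ∈ sm S t`. `κ A` is private for
`Y A` in `S \ Rh` (`Y A ∉ Rh` since `Rh ⊆ sp S t` is disjoint from `sm S t`). If `κ A ≠ kk (Y A)`, then
`π (Y A) ∈ Rh` by `clo`. If `κ A = kk (Y A)`: its owners in `S` are `Y A` and `π (Y A)`, and
`x (κ A) A ≠ 0`, `A ≠ Y A`, so `π (Y A) = A ∈ Rh`. Finally `l (π (Y A)) = 1 - l (Y A) = c * f l` and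
`l (π (Y A)) = q (π (Y A)) * f l`, so `q (π (Y A)) = c`. `π (Y A) ∉ U` by `bij`. -/
def BplStmt : Prop :=
  ∀ (ι T : Type) [Fintype ι] (D : Dat ι T) (S R : Finset ι) (p : ι → ℚ) (f : (ι → ℚ) → ℚ)
    (M : Finset T) (t : ι) (U : Finset ι) (π : ι → ι) (kk : ι → T) (Q Rh : Finset ι) (q : ι → ℚ),
    D.BC S R p f M t U π kk → D.BH S R p f t U π kk Q Rh q →
    ∀ k ∈ M, ∀ r ∈ R, D.x k r ≠ 0 →
    ∃ (h : ι → ℕ) (Y : ι → ι) (κ : ι → T), Set.InjOn Y ((Rh.erase r : Finset ι) : Set ι) ∧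
      ∀ A ∈ Rh.erase r, Y A ∈ D.sm S t ∧ π (Y A) ∈ Rh ∧ π (Y A) ∉ U ∧
        D.x (κ A) A ≠ 0 ∧
        D.Priv (S \ (Rh.erase r).filter fun b => h A ≤ h b) (Y A) (κ A) ∧
        q (π (Y A)) = ∑ b ∈ (Rh.erase r).filter fun b => h A ≤ h b, (D.x (κ A) b : ℚ) * q b

/-- **Row BFI** (end of the base case; STRONG, uses IDN, RAY, TCH, BPL). PROOF. Let
`(k₀, r₀)` be a touch (`tch`). (1) BPL for `r₀`: `A ↦ π (Y A)` is an injective map from
`Rh.erase r₀` to `Rh \ U` (`Y` injective, `π` injective on `sm S t`), so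
`|Rh| - 1 ≤ |Rh| - |U|`, `|U| ≤ 1`. (2) Let `q'` be `q` on `Q`, and on `sp S t \ Q` the number with
`p t * ρ u = q' u * ρ t` (it exists by the definition of `sp`); on `Q` the relation holds, too
(`ρ u = q u * s ρ`, `ρ t = p t * s ρ`, RAY). `sum` gives
`∑_(u ∈ U) q u = Θ = ∑_(k ∈ M) ∑_(r ∈ R) x k r * p r > 0`. So `U = {u}`, `q u = Θ`. (3) `xu` gives
`X ⊆ Rh` valid with `u ∈ X` and norms `≥ q u`. As in BPL `M` is the matching of `S \ Rh` (TCH), and
by TCH for `X ⊆ Rh` every `r ∈ R` with `x k r ≠ 0`, `k ∈ M`, is in `X`: `p r = q r ≥ q u = Θ > 0`. So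
`Θ` has only one nonzero term, with value `1`: there is exactly one touch, `(k₀, r₀)`,
`x k₀ r₀ = 1`, and `p r₀ = q u`. (4) Now `|U| = 1`, so `A ↦ π (Y A)` is a bijection from
`Rh.erase r₀` to `Rh.erase u`, and
`∑_(Rh) q - q u = ∑_(A ∈ Rh.erase r₀) q (π (Y A)) = ∑_A ∑_(b ∈ Q_A) x (κ A) b * q b ≥ ∑_A q A
= ∑_(Rh) q - q r₀`. As `q r₀ = q u` there is equality for every `A`: `x (κ A) A = 1` and
`x (κ A) b = 0` for the other `b ∈ Q_A`: `κ A` is clean in `S` with owners `Y A`, `A`. (5) Let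
`Y₁ = Y '' (Rh.erase r₀)`. `{W ∈ sm S t | π W ∈ Rh}` has `|Rh \ U| = |Rh| - 1` elements
(`bij`), contains `Y₁`, so it is equal to `Y₁`. Put
`M₁ = κ '' (Rh.erase r₀) ∪ kk '' (sm S t \ Y₁)`. `sg S r₀ = sg S t = sp S t ∪ sm S t` (`r₀, t` are
parallel) and without `r₀` it is the disjoint union of `Rh.erase r₀`, `Y₁`, `sm S t \ Y₁`,
and `π '' (sm S t \ Y₁) = sp S t \ Rh`. The pairs `{A, Y A}` and `{W, π W}` form a partition of it,
so `M₁` is a perfect matching. -/
def BfiStmt : Prop :=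
  ∀ (ι T : Type) [Fintype ι] (D : Dat ι T) (S R : Finset ι) (p : ι → ℚ) (f : (ι → ℚ) → ℚ)
    (M : Finset T) (t : ι) (U : Finset ι) (π : ι → ι) (kk : ι → T) (Q Rh : Finset ι) (q : ι → ℚ),
    D.BC S R p f M t U π kk → D.BH S R p f t U π kk Q Rh q → D.NC S R M

/-- **Row BAS** (the base case; uses RAY, TRM, TUN, BSA, UPH, BRH, BFI). PROOF. Let `R'` be valid in
`S`. `nul (S \ R') = μ` (RAY). `S \ R'` has no valid set `Z`: `(S \ R') \ Z` would be reachable with
nullity `μ - 1`. So TRM gives `M'` with `Tm (S \ R') M'`. In particular `Tm (S \ R) M`. `K = M`: from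
`IPC (S \ R) K μ` and `nul (S \ R) = μ` we get `exc = 0`, so `|E k| = 2` for `k ∈ K`; the two owners
are in `N (S \ R)` (`out`) and have value `1` (`cov`): `K` is a perfect matching of `N (S \ R)`. By
uniqueness `K = M`. `nul S = μ + 1 ≥ 2`. `R` touches `M`, so TUN gives a valid `Ra`, `ρ ∈ R (S \ R)`,
`r ∈ Ra` with `ρ r ≠ 0`. Conversely some `ρ ∈ R (S \ Ra)` has `ρ r ≠ 0` for some `r ∈ R`: otherwise
`R (S \ Ra) ≤ R (S \ R)`, both of dimension `μ`, equal; but the first `ρ` is not in `R (S \ Ra)`. BSA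
(with `Rb = R`, `t ∈ R`) gives `U, π, kk`, so `D.BC` holds; UPH, BRH, BFI. -/
def BasStmt : Prop :=
  ∀ (ι T : Type) [Fintype ι] (D : Dat ι T) (S R : Finset ι) (K : Finset T) (μ : ℕ),
    D.NH S R K μ → D.nul S = μ + 1 → D.NC S R K

/-! ## The exchange lemma and its chain form; the new cover -/

/-- **Row XTK** (exchange; STRONG, uses IDN, RAY). PROOF. `D.Vd S R p f`, `D.Vd (S \ R) Z q g`. The
solutions on `S \ R` are the solutions `l` on `S` with `f l = 0` (RAY). Fix `z₀ ∈ Z`, `l₁` a solution on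
`S` with `f l₁ ≠ 0`. For `z ∈ Z` the function `h z l = l z / q z - l z₀ / q z₀` is affine in the
solution `l` on `S` and `0` if `f l = 0`; so `h z l = u z * f l`, `u z = h z l₁ / f l₁` (subtract from
`l` a multiple of `l₁ - l₂`, `f l₂ = 0`). Let `m = min u` over `Z`, `X = {z ∈ Z | u z = m}`,
`F l = l z₀ / q z₀ + m * f l`. Then for solutions `l` on `S`: `l z = q z * F l` for `z ∈ X` and
`l z = q z * (F l + (u z - m) * f l)`, `u z - m > 0`, for `z ∈ Z \ X`. INDEPENDENCE: if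
`a * F l + b * f l = c` for all solutions `l` on `S`, then `a = 0` (on the `l` with `f l = 0`
`F l = g l` is not constant) and `b = 0`.
(1) `X` is valid in `S`. `D.Ray S X q F`. A leaf of `S \ X`: `(W, i)`. By RAY for `X`:
`l W = 1 - c * F l`, `c > 0`. `W ∉ R` (`l W = p W * f l` contradicts independence), `W ∉ Z`
(coefficient of `F` is positive there). By IDN on `S` no `r ∈ R` meets `i`: all owners of `i` in `S`
are `W` or in `X`, and `X ∩ R = ∅`. So `i` is private for `W` in `(S \ R) \ Z`, which is leafless: `W`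
has another private `j` there. The identity of `j` on `S`:
`l W + ∑_(z ∈ Z) x j z * q z * (F l + (u z - m) f l) + ∑_(r ∈ R) x j r * p r * f l = 1`; with
`l W = 1 - c * F l` and independence the coefficient of `f` is `0`, a sum of nonnegative terms: no
`r ∈ R` and no `z ∈ Z \ X` meets `j`. So `j` is private for `W` in `S \ X`: not a leaf. `S \ X` has a
solution (RAY).
(2) `R' = (Z \ X) ∪ R` is valid in `S \ X`: the solutions on `S \ X` are the solutions `l` on `S`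
with `F l = 0` (RAY for `X`); on them `l z = q z (u z - m) * f l` for `z ∈ Z \ X`, `l r = p r * f l`
for `r ∈ R`, and `f` is not constant (independence: two solutions `l₂, l₃` with `F = 0` and different
`f`; otherwise `f` would be a constant on `{F = 0}` and so `f - const` a multiple of `F`).
`(S \ X) \ R' = (S \ R) \ Z` is leafless. -/
def XtkStmt : Prop :=
  ∀ (ι T : Type) [Fintype ι] (D : Dat ι T) (S R Z : Finset ι), D.LL S → D.Valid S R →
    D.Valid (S \ R) Z →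
    ∃ X ⊆ Z, X.Nonempty ∧ D.Valid S X ∧ D.Valid (S \ X) (Z \ X ∪ R)

/-- **Row CHN** (chain form; uses XTK). PROOF. CLAIM: for every `A` with `Reach A S₀`, all `S, R` with
`LL S`, `Valid S R`, `S \ R = A`, and a touch `x k r ≠ 0`, `k ∈ K`, `r ∈ R`, the conclusion holds
(with `Reach S S'`). Induction on the chain from `A` to `S₀` (`Relation.ReflTransGen.head_induction_on`):
if `A = S₀` take `S' = S`. If `A → A \ Z`, `Z` valid in `A = S \ R`, XTK gives `X`; `S \ X` is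
leafless, `R' = Z \ X ∪ R ⊇ R` is valid in it, touches `K`, and `(S \ X) \ R' = A \ Z`; the induction
hypothesis gives `S'` reachable from `S \ X`, hence from `S`. Now the theorem: induction on the
chain from `S` to `S₀`: `S = S₀` has no touch; for `S → S \ R₁` either some element of `R₁` touches
`K` (claim) or some element of `(S \ R₁) \ S₀` does (induction hypothesis for `S \ R₁`). -/
def ChnStmt : Prop :=
  ∀ (ι T : Type) [Fintype ι] (D : Dat ι T) (S S₀ : Finset ι) (K : Finset T), D.LL S →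
    D.Reach S S₀ → (∃ k ∈ K, ∃ r ∈ S, r ∉ S₀ ∧ D.x k r ≠ 0) →
    ∃ S' R, D.Reach S S' ∧ D.LL S' ∧ D.Valid S' R ∧ S' \ R = S₀ ∧ ∃ k ∈ K, ∃ r ∈ R, D.x k r ≠ 0

/-- **Row INS** (the new cover; uses IDN, RAY). PROOF. `s` = the linear function of `R` (RAY);
`R (S \ R)` = its kernel in `R S`, `nul S = nul (S \ R) + 1`. `N S` is the disjoint union of
`N (S \ R)` and `sg S r` (an element `y ∈ S` with `ρ y = 0` on the kernel of `s` is a multiple of `s`;
`ρ r = p r * s ρ`); `R ⊆ sg S r`. The owners in `S \ R` of a coordinate `j ∈ K` are in `N (S \ R)`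
(`out`), at least two; the owners in `S` are these and, for `j = k`, `r`. The coordinates of `M` are
clean in `S` with owners in `sg S r`, so `K` and `M` are disjoint. `cov`: `a ∈ N (S \ R)` is in exactly
one `j ∈ K` (value `1`) and in no coordinate of `M`; `r` is only in `k`, value `1`, and in no
coordinate of `M` (its owners are in `(sg S r).erase r`); another `a ∈ sg S r` is in exactly one
coordinate of `M`, value `1`, and in no `j ∈ K` (if `a ∈ R` by the uniqueness of the touch, if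
`a ∉ R` then `a ∈ S \ R`, `a ∉ N (S \ R)`, `out`). `out`: `a ∈ S`, `a ∉ N S` is in `S \ R`, not in
`N (S \ R)`, not in `sg S r`. `two`: clear. `sum`: `|E S k| = |E (S \ R) k| + 1`, the other blocks of
`K` do not change, the blocks of `M` have two elements: `exc S (K ∪ M) = exc (S \ R) K + 1`.
`irr`: let `K' ⊆ K ∪ M` be nonempty, `K'' = K' ∩ K`, `A = S \ EK S K'`. (1) `K''` empty: `exc S K' = 0`
and some `y ∈ sg S r` is in `EK S K'`: `R A` is a proper subspace of `R S`. (2) `K''` nonempty,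
`k ∈ K'`: then `r ∉ A`, so `ρ r = 0` and `s ρ = 0` for `ρ ∈ R A`:
`R A ≤ R ((S \ R) \ EK (S \ R) K'')`, of dimension at most
`nul (S \ R) - 1 - exc (S \ R) K'' = nul S - 2 - (exc S K' - 1)`. (3) `K''` nonempty, `k ∉ K'`: the
kernel of `s` in `R A` is contained in `R ((S \ R) \ EK (S \ R) K'')`, so
`nul A ≤ nul (S \ R) - 1 - exc (S \ R) K'' + 1 = nul S - 1 - exc S K'`. -/
def InsStmt : Prop :=
  ∀ (ι T : Type) [Fintype ι] (D : Dat ι T) (S R : Finset ι) (K M : Finset T) (μ : ℕ) (r : ι)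
    (k : T), D.NH S R K μ → r ∈ R → k ∈ K → D.x k r = 1 →
    (∀ j ∈ K, ∀ b ∈ R, D.x j b ≠ 0 → j = k ∧ b = r) → D.PM S ((D.sg S r).erase r) M →
    D.IPC S (K ∪ M) μ

end Pool.Agent.KTB
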