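import Pool.Agent.KTB.StmtsKB
import Pool.Agent.GEN.DefsF
import Pool.Agent.GEN.DefsZ

/-!
# Squad KTB, block C: the main theorem and its application to squad GEN
-/

set_option autoImplicit false

namespace Pool.Agent.KTB

open Finset
open scoped Classical

/-- **Row NTH** (the main step for all nullities; easy, uses RAY, BAS, NST). PROOF. Strong induction
on `nul S`. `S \ R` is reachable from `S`, so `μ ≤ nul (S \ R) = nul S - 1` (RAY). If
`nul S = μ + 1` use BAS, otherwise NST with the induction hypothesis. -/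
def NthStmt : Prop :=
  ∀ (ι T : Type) [Fintype ι] (D : Dat ι T) (S R : Finset ι) (K : Finset T) (μ : ℕ),
    D.NH S R K μ → D.NC S R K

/-- **Row KAB** (the main theorem; STRONG, uses RAY, TRM, IPM, CHN, INS, NTH). PROOF. Suppose that
no leafless set has nullity `0`. `l0` is a solution on `univ`. CASE 1: `univ` is not leafless. Then
some `(Y, i)`: `i` is private for `Y` in `univ` and `Y` has no other private coordinate. Take
`K = {i}`: only `Y` contains `i`, with value `1`; `|EK univ K| = 1 < 2`. CASE 2: `univ` is leafless.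
All sets reachable from `univ` are leafless (induction on the chain; `Vd` contains `LL`). Let `μ` be
the smallest nullity of a reachable set; `μ ≥ 1`. Let `A` be reachable with `nul A = μ`. `A` has no
valid set `Z` (`A \ Z` is reachable, with nullity `μ - 1` by RAY). By TRM `Tm A M` for some `M`, by IPM
`IPC A M μ`. So there are pairs `(S₀, K)`, `S₀` reachable, `IPC S₀ K μ`; choose one with the largest
`nul S₀` (bounded by `Fintype.card ι`). Suppose some `k ∈ K`, `r ∉ S₀` have `x k r ≠ 0`. CHN (with
`S = univ`) gives `S'`, `R`, `Reach univ S'`, `LL S'`, `Valid S' R`, `S' \ R = S₀`, and a touch. The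
sets reachable from `S'` are reachable from `univ`, so `NH S' R K μ` holds. NTH: `NC S' R K`, and INS
gives `IPC S' (K ∪ M) μ`; `nul S' = nul S₀ + 1` (RAY): a contradiction. So `x k r = 0` for all
`k ∈ K`, `r ∉ S₀`. CONCLUSION: `K` is not empty: `nul S₀ ≥ μ ≥ 1`, so `N S₀` is not empty (`cov`).
`∑_(k ∈ K) x k a`: it is `1` for `a ∈ N S₀` (`cov`), `0` for `a ∈ S₀`, `a ∉ N S₀` (`out`), and `0` for
`a ∉ S₀`. Every `k ∈ K` has an owner (`two`), in `N S₀`, with value `1`. `EK univ K = N S₀`. By
counting pairs `|N S₀| = ∑_(k ∈ K) |E S₀ k| = 2 |K| + exc S₀ K = 2 |K| + nul S₀ - μ` (`sum`), and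
`nul (N S₀) = nul S₀` (`R S₀ = R (N S₀)`). So `|EK univ K| = 2 |K| + nul (EK univ K) - μ`. -/
def KabStmt : Prop :=
  ∀ (ι T : Type) [Fintype ι] (D : Dat ι T), (∃ S, D.LL S ∧ D.nul S = 0) ∨
    ∃ K : Finset T, K.Nonempty ∧ (∀ a, ∑ k ∈ K, D.x k a ≤ 1) ∧ (∀ k ∈ K, ∃ a, D.x k a = 1) ∧
      (D.EK univ K).card < 2 * K.card + D.nul (D.EK univ K)

/-- **Row KVK** (the rank of the monomials meeting a stable set; no hypotheses). `I` is a set of
exponents, `K` stable on `I` (`Pool.Agent.GEN.Stab`, `Pool.Agent.GEN.VK`).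
PROOF. Write `V = VK I K`, and `W` = the span of the vectors of the `α ∈ I` with `α j = 1` for some
`j ∈ K`. `V ≤ W` (the generators are differences of two generators of `W`). For `j ∈ K` choose
`a j ∈ I` with `a j j = 1`. By stability the `K` coordinates of `a j` are those of the unit vector of
`j`, and the `K` coordinates of the generators of `V` are `0` (both `α, β` have the `K` coordinates of
the unit vector of `j`). So the restriction to the `K` coordinates maps `W` onto `ℚ ^ K` and its
kernel in `W` contains `V`: `finrank V + |K| ≤ finrank W`. -/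
def KvkStmt : Prop :=
  ∀ (σ : Type) [Fintype σ] (I : Finset (σ →₀ ℕ)) (K : Finset σ), Pool.Agent.GEN.Stab I K →
    Module.finrank ℚ (Pool.Agent.GEN.VK I K) + K.card ≤
      Module.finrank ℚ (Submodule.span ℚ {v : σ → ℚ | ∃ α ∈ I, (∃ j ∈ K, α j = 1) ∧
        v = fun i => (α i : ℚ)})

/-- **Row KPM** ((K') for sets of monomials; uses KAB, KVK). `I` = the monomials of a face, `T` = the
coordinates of positive weight, `c` = the coefficients of a combination of the `α ∈ I` whose
coordinates in `T` are equal to `1`.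
PROOF. Apply KAB to `ι` = the subtype `I`, `T` = the subtype `T`, `x j α = α j`, `rel` = the space of
all `ρ : I → ℚ` with `∑ ρ α * α i = 0` for all `i : σ`, `l0 = c`. (1) `LL S`, `nul S = 0`:
`B` = the image of `S` in `σ →₀ ℕ`; it is independent over `ℚ` (`R S = 0`), the solution on `S` is
`l0 + ρ` with `ρ ∈ rel`, its coordinates in `T` are `1` (`h0`, `h1`), and a private coordinate of
`A` in `B` is a private coordinate in the sense of `D.Priv S`; `LL` gives another one.
(2) `K`: its image `K'` in `σ`. `Stab I K'` is clear. `W` = the span of the monomials `α ∈ I`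
meeting `K'`; these are the elements of `EK univ K` (by stability a value which is not zero is
`1`). Rank nullity for the map `ρ ↦ ∑ ρ α • α` from the functions on `EK univ K` onto `W`, whose
kernel has dimension `nul (EK univ K)`: `finrank W = |EK univ K| - nul (EK univ K) < 2 |K'|`. By
KVK `finrank (VK I K') + |K'| ≤ finrank W < 2 |K'|`. -/
def KpmStmt : Prop :=
  ∀ (σ : Type) [Fintype σ] (I : Finset (σ →₀ ℕ)) (T : Finset σ) (c : (σ →₀ ℕ) → ℚ),
    (∀ j ∈ T, ∑ α ∈ I, c α * (α j : ℚ) = 1) →
    (∃ (B : Finset (σ →₀ ℕ)) (l : (σ →₀ ℕ) → ℚ), B ⊆ I ∧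
      (∀ t : B → ℚ, (∀ j, ∑ α, t α * (((α : σ →₀ ℕ) j : ℕ) : ℚ) = 0) → t = 0) ∧
      (∀ j ∈ T, ∑ α ∈ B, l α * (α j : ℚ) = 1) ∧
      ∀ A ∈ B, ∀ j ∈ T, A j = 1 → (∀ β ∈ B, β ≠ A → β j = 0) →
        ∃ i ∈ T, i ≠ j ∧ A i = 1 ∧ ∀ β ∈ B, β ≠ A → β i = 0) ∨
    ∃ K ⊆ T, Pool.Agent.GEN.KS I K

/-- **Row KKL** (killed slopes have weak stable sets at all flat points; uses KPM). PROOF. `x ≠ 0`
is not needed. Let `(u, N)` be a flat point (`FlatPt M x u N`), as in the proof of KPR (row of squad
GEN, file in the table `gen`): `u ≠ 0`, `|u| = x N`, so `N ≠ 0`; `M` is not empty; `N` is the minimum of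
`dot u α` on `M`, and `I = fce M u` is the set of the `α ∈ M` with `dot u α = N`. Let
`T = {j | u j ≠ 0}`. FLAT: every `v : σ → ℚ` with `v i = 0` outside `T` and `∑ v i * α i = 0` for
`α ∈ I` has `∑ v = 0` (proof in the docstring of KprStmt: `n u + v` is in the cone for large `n`). By
duality the function `1` on `T` is a combination of the restrictions of the `α ∈ I` to `T`
(otherwise a linear form on `ℚ ^ T` vanishes on these and not on `1`): this gives `c` with
`∑ c α * α j = 1` for `j ∈ T`. KPM: (1) a set `B`: it is a flat base, `FlatBase M u N B`: `B` is not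
empty (`T` is not empty, the sum is `1`); independence over `ℤ` follows from `ℚ`; flat: if `v` is
`0` outside `T` and orthogonal to `B`, then
`∑_j v j = ∑_(j ∈ T) v j * ∑_(α ∈ B) l α * α j = 0`. `Killed M x` gives `A ∈ B` with exactly one base
direction `j` (`DirB B u A j`: `u j ≠ 0`, so `j ∈ T`): the last property of `B` contradicts this.
(2) `K ⊆ T` with `KS I K`: done. -/
def KklStmt : Prop :=
  ∀ (σ : Type) [Fintype σ] (M : Finset (σ →₀ ℕ)) (x : ℚ), Pool.Agent.GEN.Killed M x →
    Pool.Agent.GEN.KAll M x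

end Pool.Agent.KTB
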