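import Mathlib

/-!
# Squad KTB: good independent sets and weak stable sets of coordinates, definitions

`ι` is a finite set of vectors, `T` a set of coordinates with values `x i a` in `ℕ`. The vectors
themselves are not used, only the space `rel` of their linear relations and one solution `l0` of
the equation `∑ l a * a = τ`, where the coordinates of `τ` are equal to `1`.
-/

set_option autoImplicit false

namespace Pool.Agent.KTB

open Finset
open scoped Classical

/-- values `x i a` of the coordinates `i : T` on the elements `a : ι`, the space of relations `rel`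
and one solution `l0`; the solutions are the points of `l0 + rel` -/
structure Dat (ι T : Type) [Fintype ι] where
  x : T → ι → ℕ
  rel : Submodule ℚ (ι → ℚ)
  l0 : ι → ℚ
  h0 : ∀ i, ∑ a, (x i a : ℚ) * l0 a = 1
  h1 : ∀ ρ ∈ rel, ∀ i, ∑ a, (x i a : ℚ) * ρ a = 0

variable {ι T : Type} [Fintype ι]

/-- the solutions supported on `S` -/
def Dat.Sol (D : Dat ι T) (S : Finset ι) (l : ι → ℚ) : Prop :=
  l - D.l0 ∈ D.rel ∧ ∀ a, a ∉ S → l a = 0

/-- the relations supported on `S` -/
def Dat.R (D : Dat ι T) (S : Finset ι) : Submodule ℚ (ι → ℚ) where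
  carrier := {ρ | ρ ∈ D.rel ∧ ∀ a, a ∉ S → ρ a = 0}
  add_mem' := fun {u v} hu hv => ⟨D.rel.add_mem hu.1 hv.1, fun a ha => by
    simp [hu.2 a ha, hv.2 a ha]⟩
  zero_mem' := ⟨D.rel.zero_mem, fun _ _ => rfl⟩
  smul_mem' := fun c u hu => ⟨D.rel.smul_mem c hu.1, fun a ha => by simp [hu.2 a ha]⟩

/-- the nullity of `S` -/
noncomputable def Dat.nul (D : Dat ι T) (S : Finset ι) : ℕ := Module.finrank ℚ (D.R S)

/-- the elements of `S` which contain the coordinate `i` -/
noncomputable def Dat.E (D : Dat ι T) (S : Finset ι) (i : T) : Finset ι :=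
  S.filter fun a => D.x i a ≠ 0

/-- the elements of `S` which contain a coordinate of `K` -/
noncomputable def Dat.EK (D : Dat ι T) (S : Finset ι) (K : Finset T) : Finset ι :=
  S.filter fun a => ∃ k ∈ K, D.x k a ≠ 0

/-- `i` is a private coordinate of `a` in `S` -/
def Dat.Priv (D : Dat ι T) (S : Finset ι) (a : ι) (i : T) : Prop :=
  a ∈ S ∧ D.x i a = 1 ∧ ∀ b ∈ S, b ≠ a → D.x i b = 0

/-- `S` is leafless: there is a solution on `S`, and no element of `S` has exactly one private
coordinate -/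
def Dat.LL (D : Dat ι T) (S : Finset ι) : Prop :=
  (∃ l, D.Sol S l) ∧ ∀ a i, D.Priv S a i → ∃ j, j ≠ i ∧ D.Priv S a j

/-- on the solutions supported on `S` the coordinates `r ∈ Q` are positive multiples `p r` of one
function `f`, which is not constant -/
def Dat.Ray (D : Dat ι T) (S Q : Finset ι) (p : ι → ℚ) (f : (ι → ℚ) → ℚ) : Prop :=
  Q ⊆ S ∧ (∀ r ∈ Q, 0 < p r ∧ ∀ l, D.Sol S l → l r = p r * f l) ∧
    ∃ l l', D.Sol S l ∧ D.Sol S l' ∧ f l ≠ f l'

/-- `R` is valid in `S`, with norms `p` and function `f` -/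
def Dat.Vd (D : Dat ι T) (S R : Finset ι) (p : ι → ℚ) (f : (ι → ℚ) → ℚ) : Prop :=
  R.Nonempty ∧ D.Ray S R p f ∧ D.LL (S \ R)

/-- `R` is valid in `S` -/
def Dat.Valid (D : Dat ι T) (S R : Finset ι) : Prop := ∃ p f, D.Vd S R p f

/-- the coordinate `k` is clean in `S`, with owners `y`, `y'`, both with value `1` -/
def Dat.Clean (D : Dat ι T) (S : Finset ι) (k : T) (y y' : ι) : Prop :=
  y ∈ S ∧ y' ∈ S ∧ y ≠ y' ∧ D.x k y = 1 ∧ D.x k y' = 1 ∧
    ∀ b ∈ S, b ≠ y → b ≠ y' → D.x k b = 0

/-- the coordinates of `M` are clean in `S` and match `A` perfectly -/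
def Dat.PM (D : Dat ι T) (S A : Finset ι) (M : Finset T) : Prop :=
  (∀ k ∈ M, ∃ y ∈ A, ∃ y' ∈ A, D.Clean S k y y') ∧ ∀ a ∈ A, ∃! k, k ∈ M ∧ D.x k a ≠ 0

/-- the elements of `S` which occur in a relation supported on `S` -/
noncomputable def Dat.N (D : Dat ι T) (S : Finset ι) : Finset ι :=
  S.filter fun a => ∃ ρ ∈ D.R S, ρ a ≠ 0

/-- `S` is leafless and `M` is the only perfect matching of `N S` by coordinates which are clean
in `S` -/
def Dat.Tm (D : Dat ι T) (S : Finset ι) (M : Finset T) : Prop :=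
  D.LL S ∧ D.PM S (D.N S) M ∧ ∀ M', D.PM S (D.N S) M' → M' = M

/-- `S'` is reachable from `S` by removing valid sets -/
def Dat.Reach (D : Dat ι T) : Finset ι → Finset ι → Prop :=
  Relation.ReflTransGen fun A B => ∃ R, D.Valid A R ∧ B = A \ R

/-- the elements of `S` whose coordinate function on the relations of `S` is a positive multiple
of the one of `t` -/
noncomputable def Dat.sp (D : Dat ι T) (S : Finset ι) (t : ι) : Finset ι :=
  S.filter fun y => ∃ c : ℚ, 0 < c ∧ ∀ ρ ∈ D.R S, ρ y = c * ρ t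

/-- the elements of `S` whose coordinate function on the relations of `S` is a negative multiple
of the one of `t` -/
noncomputable def Dat.sm (D : Dat ι T) (S : Finset ι) (t : ι) : Finset ι :=
  S.filter fun y => ∃ c : ℚ, 0 < c ∧ ∀ ρ ∈ D.R S, ρ y = -(c * ρ t)

/-- the elements of `S` whose coordinate function on the relations of `S` is a nonzero multiple
of the one of `t` -/
noncomputable def Dat.sg (D : Dat ι T) (S : Finset ι) (t : ι) : Finset ι :=
  S.filter fun y => ∃ c : ℚ, c ≠ 0 ∧ ∀ ρ ∈ D.R S, ρ y = c * ρ t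

/-- the excess of the blocks of `K` -/
noncomputable def Dat.exc (D : Dat ι T) (S : Finset ι) (K : Finset T) : ℕ :=
  ∑ k ∈ K, ((D.E S k).card - 2)

/-- `K` is an irreducible perfect cover of level `μ` of `S` -/
structure Dat.IPC (D : Dat ι T) (S : Finset ι) (K : Finset T) (μ : ℕ) : Prop where
  cov : ∀ a ∈ D.N S, ∃ k ∈ K, D.x k a = 1 ∧ ∀ j ∈ K, j ≠ k → D.x j a = 0
  out : ∀ a ∈ S, a ∉ D.N S → ∀ k ∈ K, D.x k a = 0
  two : ∀ k ∈ K, 2 ≤ (D.E S k).card
  sum : D.exc S K + μ = D.nul S
  irr : ∀ K' ⊆ K, K'.Nonempty → D.nul (S \ D.EK S K') + 1 + D.exc S K' ≤ D.nul S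

/-- the hypotheses of the main step: `R` is valid in `S`, `K` is an irreducible perfect cover of
`S \ R`, it is touched by `R`, and all sets reachable from `S` have nullity at least `μ` -/
structure Dat.NH (D : Dat ι T) (S R : Finset ι) (K : Finset T) (μ : ℕ) : Prop where
  ll : D.LL S
  pos : 1 ≤ μ
  min : ∀ S', D.Reach S S' → μ ≤ D.nul S'
  vd : D.Valid S R
  ipc : D.IPC (S \ R) K μ
  tch : ∃ k ∈ K, ∃ r ∈ R, D.x k r ≠ 0

/-- the conclusion of the main step: there is exactly one touch `(r, k)`, with value `1`, and the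
other elements parallel to `r` have a clean perfect matching -/
def Dat.NC (D : Dat ι T) (S R : Finset ι) (K : Finset T) : Prop :=
  ∃ r ∈ R, ∃ k ∈ K, D.x k r = 1 ∧ (∀ j ∈ K, ∀ b ∈ R, D.x j b ≠ 0 → j = k ∧ b = r) ∧
    ∃ M, D.PM S ((D.sg S r).erase r) M

end Pool.Agent.KTB
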