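import Pool.Agent.KTB.StmtsKC

/-!
# Squad KTB, block D: isolated circuits ((K''), note 3714)

`K` is an irreducible perfect cover (`Dat.IPC`) of `S`. A BLOCK of `S` is a pair `(P, Q)` of disjoint
sets of coordinates with `|P| = |Q|`, `P` nonempty, such that every element of `S` which meets `P` or
`Q` meets each of them exactly once, with value `1`. ISO: there is no block with `P ⊆ K`.
-/

set_option autoImplicit false

namespace Pool.Agent.KTB

open Finset
open scoped Classical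

/-- all sets reachable from `S` have nullity at least `μ` -/
def Dat.Mn {ι T : Type} [Fintype ι] (D : Dat ι T) (S : Finset ι) (μ : ℕ) : Prop :=
  D.LL S ∧ 1 ≤ μ ∧ ∀ S', D.Reach S S' → μ ≤ D.nul S'

/-- `(P, Q)` is a block of `S` -/
structure Dat.Bk {ι T : Type} [Fintype ι] (D : Dat ι T) (S : Finset ι) (P Q : Finset T) :
    Prop where
  ne : P.Nonempty
  disj : Disjoint P Q
  card : P.card = Q.card
  once : ∀ a ∈ S, (∑ p ∈ P, D.x p a = 1 ∧ ∑ q ∈ Q, D.x q a = 1) ∨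
    ((∀ p ∈ P, D.x p a = 0) ∧ ∀ q ∈ Q, D.x q a = 0)

/-- **Row XCS** (the valid set through a free point, with its closure property; medium, uses IDN,
CLO). PROOF. This is the proof of row XCL (block B, file of XCL in the table `ktb`), keeping more of
the conclusion of CLO. `f l = l t`, `Q = {y ∈ S | ∃ c > 0, l y = c * l t for all solutions l on S}`.
For `W ∈ sm S t` take `kk W ∈ par S K t`, `π W` from `cls`, `pair`, with `Clean S (kk W) W (π W)`; for
other `W` any values (`T` is not empty, `k : T`). `Wc = {W ∈ sm S t | π W ∈ Q}`, `X₀ = {t}`. CLO gives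
`X`, `t ∈ X ⊆ Q`. The last property: let `W ∈ sm S t`, `l W = 1 - c * l t` on solutions, `c > 0`; then
`l (π W) = 1 - l W = c * l t` (IDN), so `π W ∈ Q`, `W ∈ Wc`, and the closure property of CLO applies. -/
def XcsStmt : Prop :=
  ∀ (ι T : Type) [Fintype ι] (D : Dat ι T) (S : Finset ι) (K : Finset T) (μ : ℕ) (k : T) (t : ι),
    D.LL S → D.IPC S K μ → D.Fr S K k t →
    ∃ (X : Finset ι) (π : ι → ι) (kk : ι → T), D.Valid S X ∧ t ∈ X ∧
      (∀ x ∈ X, ∃ c : ℚ, 0 < c ∧ ∀ l, D.Sol S l → l x = c * l t) ∧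
      (∀ W ∈ D.sm S t, kk W ∈ D.par S K t ∧ D.Clean S (kk W) W (π W)) ∧
      ∀ W ∈ D.sm S t, ∀ c : ℚ, 0 < c → (∀ l, D.Sol S l → l W = 1 - c * l t) →
        ∀ j, j ≠ kk W → D.Priv (S \ X) W j → π W ∈ X

/-- **Row RMV** (removal of a valid set through `t`; easy, uses RAY). PROOF. By RAY for `X` (with
`p, f` of `Valid`, `r₀ = t`): `ρ x = p x * s ρ` for `x ∈ X`, `ρ ∈ R S`, and `R (S \ X)` is the kernel of
`s` in `R S`, i.e. `{ρ ∈ R S | ρ t = 0}`; `ρ x = (p x / p t) * ρ t`, so `X ⊆ sg S t`; some `ρ₀ ∈ R S` has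
`ρ₀ t ≠ 0`. `N (S \ X)`: if `ρ ∈ R (S \ X)`, `ρ a ≠ 0`, then `a ∈ N S`, and `a ∈ sg S t` would give
`ρ a = c * ρ t = 0`. Conversely let `a ∈ N S`, `a ∉ sg S t`; then `a ∉ X`. If `ρ a = 0` for all
`ρ ∈ R (S \ X)`, then for `ρ ∈ R S` the relation `ρ - (ρ t / ρ₀ t) • ρ₀` is in `R (S \ X)`, so
`ρ a = (ρ₀ a / ρ₀ t) * ρ t`, and `ρ₀ a ≠ 0` as `a ∈ N S`: `a ∈ sg S t`, a contradiction. `Mn`: `S \ X` is
leafless, and the sets reachable from `S \ X` are reachable from `S`
(`Relation.ReflTransGen.head`). -/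
def RmvStmt : Prop :=
  ∀ (ι T : Type) [Fintype ι] (D : Dat ι T) (S X : Finset ι) (t : ι) (μ : ℕ),
    D.Valid S X → t ∈ X →
    (∀ ρ, ρ ∈ D.R (S \ X) ↔ ρ ∈ D.R S ∧ ρ t = 0) ∧ X ⊆ D.sg S t ∧ t ∈ D.N S ∧
    D.N (S \ X) = D.N S \ D.sg S t ∧ D.nul (S \ X) + 1 = D.nul S ∧
    (D.Mn S μ → D.Mn (S \ X) μ)

/-- **Row TWO** (every coordinate meets `N S` at least twice; easy, uses IDN). PROOF. If the only
element of `N S` which meets `q` is `y`, then by IDN `x q y * ρ y = 0` for all `ρ ∈ R S` (the elements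
outside `N S` have `ρ a = 0`), so `ρ y = 0`, against `y ∈ N S`. -/
def TwoStmt : Prop :=
  ∀ (ι T : Type) [Fintype ι] (D : Dat ι T) (S : Finset ι) (q : T),
    (∃ y ∈ D.N S, D.x q y ≠ 0) → 2 ≤ ((D.N S).filter fun y => D.x q y ≠ 0).card

/-- **Row DST** (counting in the class of a free point; medium, uses TWO, FRT). `G` = the elements
of `sg S t` which meet `P`.
PROOF. Let `n = |P ∩ par S K t|`. (1) `|G| ≤ 2 n + 1`, and `|G| ≤ 2 n` if `t ∉ G`: let `y ∈ G`, `y ≠ t`.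
`y ∈ N S` (`ρ y = c * ρ t`, `c ≠ 0`, `tN`). By `cls` some `j ∈ par S K t` has `x j y ≠ 0`; by `cov` it is
the only element of `K` which meets `y`, so `j ∈ P`. So the elements of `G` other than `t` are in the
blocks `E S j`, `j ∈ P ∩ par S K t`, which have two elements (`pair`, `Clean`). (2) Let `q ∈ Q` with no
`y ∈ N S`, `y ∉ sg S t`, meeting it. Then all its at least two (TWO) elements of `N S` are in
`sg S t`, and meet `P`: they are in `G`. For different `q` these sets are disjoint (an element of `N S`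
meets `Q` at most once). So `2 |Q'| ≤ |G| ≤ 2 n + 1`, where `Q'` is the set of these `q`. -/
def DstStmt : Prop :=
  ∀ (ι T : Type) [Fintype ι] (D : Dat ι T) (S : Finset ι) (K P Q : Finset T) (μ : ℕ) (k : T)
    (t : ι), D.IPC S K μ → D.Fr S K k t → P ⊆ K →
    (∀ y ∈ D.N S, ∑ q ∈ Q, D.x q y ≤ 1) →
    (∀ y ∈ D.N S, ∀ q ∈ Q, D.x q y ≠ 0 → ∃ p ∈ P, D.x p y ≠ 0) →
    (∀ q ∈ Q, ∃ y ∈ D.N S, D.x q y ≠ 0) →
    (((D.sg S t).filter fun y => ∃ p ∈ P, D.x p y ≠ 0).card ≤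
      2 * (P ∩ D.par S K t).card + 1) ∧
    ((∀ p ∈ P, D.x p t = 0) → ((D.sg S t).filter fun y => ∃ p ∈ P, D.x p y ≠ 0).card ≤
      2 * (P ∩ D.par S K t).card) ∧
    (Q.filter fun q => ∀ y ∈ D.N S, D.x q y ≠ 0 → y ∈ D.sg S t).card ≤
      (P ∩ D.par S K t).card

/-- **Row DSC** (descent inequality; medium, uses TWO, RMV, DST, FRC, XCL, IPX). PROOF. Induction
on `nul S`. `S` itself is reachable, so `μ ≤ nul S`. (1) `nul S = μ`: `exc S K = 0`, so all
`|E S k| = 2`; by TWO and the hypotheses `2 |Q| ≤` the number of the elements of `N S` which meet `Q`,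
`≤` the number of the elements of `N S` which meet `P`, `≤ 2 |P|`. (2) `μ < nul S`: FRC gives a free
point `(k, t)`, XCL a valid `X` with `t ∈ X`, IPX `X ⊆ sg S t`, `IPC (S \ X) K₁ μ`,
`K₁ = K \ par S K t`. `N (S \ X)` is `N S \ sg S t` (RMV).
`Mn (S \ X) μ`, `nul (S \ X) < nul S`. Put `P₁ = P \ par S K t`, `Q₁ = {q ∈ Q | some y ∈ N (S \ X)
meets q}`. An element of `N (S \ X)` which meets `Q₁` meets some `p ∈ P`, and `p ∉ par S K t` because
`y ∉ sg S t`. By induction `|Q₁| ≤ |P₁|`. By DST `|Q \ Q₁| ≤ |P ∩ par S K t|`. Add. -/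
def DscStmt : Prop :=
  ∀ (ι T : Type) [Fintype ι] (D : Dat ι T) (S : Finset ι) (K P Q : Finset T) (μ : ℕ),
    D.Mn S μ → D.IPC S K μ → P ⊆ K →
    (∀ y ∈ D.N S, ∑ q ∈ Q, D.x q y ≤ 1) →
    (∀ y ∈ D.N S, ∀ q ∈ Q, D.x q y ≠ 0 → ∃ p ∈ P, D.x p y ≠ 0) →
    (∀ q ∈ Q, ∃ y ∈ D.N S, D.x q y ≠ 0) →
    Q.card ≤ P.card

/-- **Row IS0** (no block, smallest nullity; medium, uses IDN, RAY, TRM, TWO). PROOF. `S` has no valid set
`Z` (`S \ Z` would be reachable, of nullity `μ - 1`), so by TRM `Tm S M` for some `M`. `exc S K = 0`, all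
`|E S k| = 2`, with both elements in `N S` (`out`) and values `1` (`cov`), so `K` is a perfect matching
of `N S`, clean in `S`: `K = M`. `Q ∩ K = ∅`: if `q ∈ Q ∩ K`, an element `a ∈ E S q` (`two`) meets `P`
(`once`) in some `p ≠ q` (disjointness), both in `K`, against `cov` (`a ∈ N S` by `out`). The elements
of `S` which meet `Q` are the ones which meet `P`, they are in `N S`, there are `2 |P| = 2 |Q|` of
them. Every `q ∈ Q` is met by some `a ∈ S` (IDN: `∑_(a ∈ S) x q a * l a = 1` for a solution `l` on `S`),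
so by at least two elements of `N S` (TWO); these sets are disjoint for different `q` (`once`), so
each of them has exactly two elements. Hence each `q ∈ Q` has exactly two owners, in `N S`,
with value `1`: `q` is clean in `S`. `(K \ P) ∪ Q` is a perfect matching of `N S` (an element which
meets `P` is in no coordinate of `K \ P` and in exactly one of `Q`; the others are in exactly one of
`K \ P` and in none of `Q`). By uniqueness `(K \ P) ∪ Q = K`, so `Q ⊆ K`, `Q = ∅`, `P = ∅`: a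
contradiction. -/
def Is0Stmt : Prop :=
  ∀ (ι T : Type) [Fintype ι] (D : Dat ι T) (S : Finset ι) (K P Q : Finset T) (μ : ℕ),
    D.Mn S μ → D.IPC S K μ → D.nul S = μ → P ⊆ K → ¬ D.Bk S P Q

/-- **Row IS1** (removal of the class of a free point; STRONG, uses IDN, TWO, RMV, DST, DSC, XCS,
IPX). PROOF. Let `(k, t)` be a free point, `X, π, kk` from XCS; IPX: `X ⊆ sg S t`,
`IPC (S \ X) K₁ μ`, `K₁ = K \ par S K t`; `Mn (S \ X) μ`. `N (S \ X) = N S \ sg S t`. Suppose that `P` is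
not contained in `par S K t`: `P₁ = P \ par S K t` is not empty. `Q ∩ K = ∅` (as in IS0). The elements
of `S` which meet `Q` meet `P` and are in `N S` (`out`); every `q ∈ Q` is met by one of them (IDN: the
identity of `q` for a solution on `S`), so the hypotheses of DST and DSC hold for `P, Q`. Let
`Q₁ = {q ∈ Q | some y ∈ N (S \ X) meets q}`. DSC for `S \ X`, `K₁`, `P₁`, `Q₁` (hypotheses as in the
proof of DSC): `|Q₁| ≤ |P₁|`. DST: `|Q \ Q₁| ≤ |P ∩ par S K t|`. As `|Q| = |P|` there is equality in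
both. Put `n = |P ∩ par S K t| = |Q \ Q₁|`, `G` = the elements of `sg S t` which meet `P` (equivalently
`Q`); `|G| ≤ 2 n + 1`, and `≤ 2 n` if `t ∉ G` (DST). Every `q ∈ Q \ Q₁` is met only by elements of `G`
(its owners in `S` are in `N S`), at least two; these sets are disjoint.
CLAIM: no `a ∈ sg S t`, `a ∉ X`, meets `Q₁`. Suppose `a` does; `a ∈ G`. `a` meets no `q ∈ Q \ Q₁`. So
`2 n ≤ |G| - 1`, hence `|G| = 2 n + 1`, `t ∈ G`, every `q ∈ Q \ Q₁` has exactly two owners, and every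
`x ∈ G`, `x ≠ a`, is an owner of one of them. For `x ∈ X ∩ G` (so `x ≠ a`) let `q` be this coordinate
and `y` the other owner: `Clean S q x y`, `y ∈ G`. `l x = c * l t`, `c > 0`, so `l y = 1 - c * l t` on
solutions (IDN), `y ∈ sm S t`. `q` is private for `y` in `S \ X` (`y ∉ X`: the elements of `X` are in
`sp S t`), `q ≠ kk y` (`kk y ∈ K`), so `π y ∈ X` by XCS. `kk y ∈ P` (`y` meets `P` and `K` only once, `cov`),
so `π y ∈ G`. `π y ≠ t` (`t` meets only `k ∈ K`, and `k ∉ par S K t`, `kk y ∈ par S K t`). The map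
`x ↦ π y` from `X ∩ G` to `(X ∩ G).erase t` is injective: `π y` determines `kk y` (`cov`), so `y`, so `q`
(`y` meets `Q` once), so `x`. Since `t ∈ X ∩ G` this is impossible.
CONCLUSION: `(P₁, Q₁)` is a block of `S \ X`: `|P₁| = |Q₁|`. Let `a ∈ S \ X`. If `a ∈ sg S t`: `a ≠ t`, so
`a` meets `K` only in `par S K t` (`cls`, `cov`), no `p ∈ P₁`, and no `q ∈ Q₁` by the claim. If
`a ∉ sg S t`: `a` meets no `p ∈ par S K t` (blocks of `par` are in `sg S t`) and no `q ∈ Q \ Q₁` (their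
owners are in `G`); so `once` for `(P₁, Q₁)` follows from `once` for `(P, Q)`. -/
def Is1Stmt : Prop :=
  ∀ (ι T : Type) [Fintype ι] (D : Dat ι T) (S : Finset ι) (K P Q : Finset T) (μ : ℕ) (k : T)
    (t : ι), D.Mn S μ → D.IPC S K μ → D.Fr S K k t → P ⊆ K → D.Bk S P Q →
    ¬ P ⊆ D.par S K t →
    ∃ X Q₁, D.Valid S X ∧ D.Mn (S \ X) μ ∧ D.IPC (S \ X) (K \ D.par S K t) μ ∧
      D.Bk (S \ X) (P \ D.par S K t) Q₁

/-- **Row ISO** (no block in a cover; easy, uses RMV, FRC, IS0, IS1). PROOF. Induction on `nul S`. If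
`nul S = μ`: IS0. Otherwise `μ < nul S`, FRC gives free points; for each of them, `(k, t)`,
`P ⊆ par S K t`: otherwise IS1 gives a block of `S \ X` with `P \ par S K t ⊆ K \ par S K t` and
`nul (S \ X) < nul S` (RMV), against the induction hypothesis. Two different free points have
disjoint `par`, so `P = ∅`: a contradiction. -/
def IsoStmt : Prop :=
  ∀ (ι T : Type) [Fintype ι] (D : Dat ι T) (S : Finset ι) (K P Q : Finset T) (μ : ℕ),
    D.Mn S μ → D.IPC S K μ → P ⊆ K → ¬ D.Bk S P Q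

/-- **Row KIA** (main theorem with isolation; copy of KAB of helper38 plus ISO; uses RAY, TRM, IPM,
CHN, INS, NTH, ISO). PROOF. As KAB. CASE 1 (`univ` not leafless): `K = {i}`, where `i` is the only
private coordinate of `Y` in `univ`. Let `P ⊆ {i}`, `Bk univ P Q`: `P = {i}`, `Q = {q}`, `q ≠ i`. Every
`a ≠ Y` does not meet `i`, so by `once` it does not meet `q`; `Y` meets `i`, so `x q Y = 1`: `q` is
another private coordinate of `Y`, a contradiction. CASE 2: `K` is an `IPC` of level `μ` of a set `S₀`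
reachable from `univ`, `Mn S₀ μ` holds (the sets reachable from `S₀` are reachable from `univ`). If
`Bk univ P Q`, `P ⊆ K`, then `Bk S₀ P Q` (restrict `once` to `a ∈ S₀`): impossible by ISO. -/
def KiaStmt : Prop :=
  ∀ (ι T : Type) [Fintype ι] (D : Dat ι T), (∃ S, D.LL S ∧ D.nul S = 0) ∨
    ∃ K : Finset T, K.Nonempty ∧ (∀ a, ∑ k ∈ K, D.x k a ≤ 1) ∧ (∀ k ∈ K, ∃ a, D.x k a = 1) ∧
      (D.EK univ K).card < 2 * K.card + D.nul (D.EK univ K) ∧
      ∀ P Q : Finset T, P ⊆ K → ¬ D.Bk univ P Q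

/-- `(P, Q)` is a block of the set `I` of monomials -/
structure BkM {σ : Type} (I : Finset (σ →₀ ℕ)) (P Q : Finset σ) : Prop where
  ne : P.Nonempty
  disj : Disjoint P Q
  card : P.card = Q.card
  once : ∀ α ∈ I, (∑ j ∈ P, α j = 1 ∧ ∑ j ∈ Q, α j = 1) ∨ ∀ j, j ∈ P ∨ j ∈ Q → α j = 0

/-- **Row KPN** ((K'') for sets of monomials; copy of KPM of helper92; uses KIA, KVK). PROOF. As KPM,
with the additional property of `K` from KIA: a block `(P, Q)` of `I` with `P ⊆ K`, `Q ⊆ T` gives a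
block of `univ` for the data of KPM (coordinates = the subtype `T`, elements = the subtype `I`). -/
def KpnStmt : Prop :=
  ∀ (σ : Type) [Fintype σ] (I : Finset (σ →₀ ℕ)) (T : Finset σ) (c : (σ →₀ ℕ) → ℚ),
    (∀ j ∈ T, ∑ α ∈ I, c α * (α j : ℚ) = 1) →
    (∃ (B : Finset (σ →₀ ℕ)) (l : (σ →₀ ℕ) → ℚ), B ⊆ I ∧
      (∀ t : B → ℚ, (∀ j, ∑ α, t α * (((α : σ →₀ ℕ) j : ℕ) : ℚ) = 0) → t = 0) ∧
      (∀ j ∈ T, ∑ α ∈ B, l α * (α j : ℚ) = 1) ∧
      ∀ A ∈ B, ∀ j ∈ T, A j = 1 → (∀ β ∈ B, β ≠ A → β j = 0) →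
        ∃ i ∈ T, i ≠ j ∧ A i = 1 ∧ ∀ β ∈ B, β ≠ A → β i = 0) ∨
    ∃ K ⊆ T, Pool.Agent.GEN.KS I K ∧ ∀ P Q : Finset σ, P ⊆ K → Q ⊆ T → ¬ BkM I P Q

/-!
**Row KPI** (FINAL ROW of squad KTB; statement `Pool.Agent.GEN.KpiStmt` of `GEN/DefsI.lean`; copy of KKL
of helper51; hypotheses `KpnStmt`, `Pool.Agent.GEN.LmxStmt` of `GEN/StmtsZD.lean`). PROOF. As KKL with
KPN in place of KPM: for a flat point `(u, N)`, `I = fce M u`, `T = {j | u j ≠ 0}` we get `K₀ ⊆ T` with
`KS I K₀` and without blocks `(P, Q)`, `P ⊆ K₀`, `Q ⊆ T`. Let `K ⊆ K₀` be minimal with `KS I K` (a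
circuit). Let `C` be a circuit with variables in `T`. Suppose that `K ∪ C` is not stable on `I`. Both
are stable, so some `α ∈ I` has `∑_(K ∪ C) α ≥ 2`, and `∑_K α ≤ 1`, `∑_C α ≤ 1`: there are
`j₁ ∈ K`, `j₂ ∈ C`, `j₁ ≠ j₂`, `α j₁ = α j₂ = 1`. LMX gives `P ⊆ K`, `Q ⊆ C`, `Disjoint P C` and
`Blk I P Q`, hence `BkM I P Q`: a contradiction. (`CircP` and `Circ` of `GEN/StmtsZD.lean` are the same
up to the definition of minimality: nonempty subsets of a stable set are stable.)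
-/

end Pool.Agent.KTB
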